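import Mathlib

/-! Campaign FP, row 1: stick breaking. -/

set_option autoImplicit false

open Metric Set Filter Topology

namespace Pool.Agent.MPca0fc2.FP

/-- `((1 + s_k) / 2)² ∏_{i < k} ((1 - s_i) / 2)²` -/
noncomputable def stick (k : ℕ) (s : ℕ → ℂ) : ℂ :=
  ((1 + s k) / 2) ^ 2 * ∏ i ∈ Finset.range k, ((1 - s i) / 2) ^ 2

theorem stick_par (s : ℂ) : ‖(1 + s) / 2‖ ^ 2 + ‖(1 - s) / 2‖ ^ 2 = (1 + ‖s‖ ^ 2) / 2 := by
  rw [norm_div, norm_div, ← Complex.normSq_eq_norm_sq s]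
  have h1 : ‖1 + s‖ ^ 2 = Complex.normSq (1 + s) := (Complex.normSq_eq_norm_sq _).symm
  have h2 : ‖1 - s‖ ^ 2 = Complex.normSq (1 - s) := (Complex.normSq_eq_norm_sq _).symm
  have h3 : ‖(2 : ℂ)‖ = 2 := by norm_num
  rw [div_pow, div_pow, h1, h2, h3, Complex.normSq_apply, Complex.normSq_apply, Complex.normSq_apply]
  simp only [Complex.add_re, Complex.add_im, Complex.sub_re, Complex.sub_im, Complex.one_re, Complex.one_im]
  ring

theorem stick_par_le {s : ℂ} (hs : ‖s‖ ≤ 1) : ‖(1 + s) / 2‖ ^ 2 + ‖(1 - s) / 2‖ ^ 2 ≤ 1 := by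
  rw [stick_par]
  have : ‖s‖ ^ 2 ≤ 1 := pow_le_one₀ (norm_nonneg s) hs
  linarith

theorem stick_sum_aux {s : ℕ → ℂ} (hs : ∀ i, ‖s i‖ ≤ 1) (m : ℕ) :
    ∑ k ∈ Finset.range m, ‖stick k s‖ + ∏ i ∈ Finset.range m, ‖(1 - s i) / 2‖ ^ 2 ≤ 1 := by
  induction m with
  | zero => simp
  | succ m ih =>
    rw [Finset.sum_range_succ, Finset.prod_range_succ]
    have h1 : ‖stick m s‖ = ‖(1 + s m) / 2‖ ^ 2 * ∏ i ∈ Finset.range m, ‖(1 - s i) / 2‖ ^ 2 := by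
      rw [stick, norm_mul, norm_pow, norm_prod]
      congr 1
      exact Finset.prod_congr rfl fun i _ => norm_pow _ _
    have h2 : 0 ≤ ∏ i ∈ Finset.range m, ‖(1 - s i) / 2‖ ^ 2 := Finset.prod_nonneg fun i _ => by positivity
    have h3 := stick_par_le (hs m)
    rw [h1]
    nlinarith [mul_le_mul_of_nonneg_right h3 h2]

/-- `|(1+s)/2|² + |(1-s)/2|² = (1+|s|²)/2 ≤ 1`; induction with `∑_{k<m} |stick k s| + ∏_{i<m} |(1-s_i)/2|² ≤ 1` -/
theorem stick_sum {s : ℕ → ℂ} (hs : ∀ i, ‖s i‖ ≤ 1) (m : ℕ) :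
    ∑ k ∈ Finset.range m, ‖stick k s‖ ≤ 1 := by
  have h1 := stick_sum_aux hs m
  have h2 : 0 ≤ ∏ i ∈ Finset.range m, ‖(1 - s i) / 2‖ ^ 2 := Finset.prod_nonneg fun i _ => by positivity
  linarith

theorem stick_summable {s : ℕ → ℂ} (hs : ∀ i, ‖s i‖ ≤ 1) : Summable fun k => ‖stick k s‖ :=
  summable_of_sum_range_le (fun _ => norm_nonneg _) (stick_sum hs)

theorem stick_tsum_le {s : ℕ → ℂ} (hs : ∀ i, ‖s i‖ ≤ 1) : ∑' k, ‖stick k s‖ ≤ 1 :=
  Real.tsum_le_of_sum_range_le (fun _ => norm_nonneg _) (stick_sum hs)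

theorem stick_le {s : ℕ → ℂ} {ρ : ℝ} (hs : ∀ i, ‖s i‖ ≤ ρ) (k : ℕ) :
    ‖stick k s‖ ≤ (((1 + ρ) / 2) ^ 2) ^ (k + 1) := by
  have hn : ‖(2 : ℂ)‖ = 2 := by norm_num
  have h1 : ‖((1 + s k) / 2) ^ 2‖ ≤ ((1 + ρ) / 2) ^ 2 := by
    rw [norm_pow]
    refine pow_le_pow_left₀ (norm_nonneg _) ?_ 2
    rw [norm_div, hn]
    have h3 : ‖1 + s k‖ ≤ 1 + ‖s k‖ := (norm_add_le _ _).trans (by rw [norm_one])
    linarith [hs k]
  have h2 : ∀ i, ‖((1 - s i) / 2) ^ 2‖ ≤ ((1 + ρ) / 2) ^ 2 := by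
    intro i
    rw [norm_pow]
    refine pow_le_pow_left₀ (norm_nonneg _) ?_ 2
    rw [norm_div, hn]
    have h3 : ‖1 - s i‖ ≤ 1 + ‖s i‖ := (norm_sub_le _ _).trans (by rw [norm_one])
    linarith [hs i]
  rw [stick, norm_mul, norm_prod]
  calc ‖((1 + s k) / 2) ^ 2‖ * ∏ i ∈ Finset.range k, ‖((1 - s i) / 2) ^ 2‖ ≤
        ((1 + ρ) / 2) ^ 2 * ∏ i ∈ Finset.range k, ((1 + ρ) / 2) ^ 2 := by
        refine mul_le_mul h1 ?_ (Finset.prod_nonneg fun i _ => norm_nonneg _) (sq_nonneg _)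
        exact Finset.prod_le_prod (fun i _ => norm_nonneg _) fun i _ => h2 i
    _ = (((1 + ρ) / 2) ^ 2) ^ (k + 1) := by
        rw [Finset.prod_const, Finset.card_range, pow_succ' _ k]

noncomputable def bk (k : ℕ) : ℝ := 1 - 1 / ((k : ℝ) + 2) ^ 2

/-- the point `(-b, .., -b, b, 0, ..)` -/
noncomputable def sk (k i : ℕ) : ℂ := if i < k then -(bk k : ℂ) else if i = k then (bk k : ℂ) else 0

noncomputable def cc (k : ℕ) : ℝ := (((1 + bk k) / 2) ^ 2) ^ (k + 1)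

theorem bk_mem (k : ℕ) : 0 < bk k ∧ bk k < 1 := by
  have h : (0 : ℝ) ≤ k := Nat.cast_nonneg k
  unfold bk
  have h1 : 1 / ((k : ℝ) + 2) ^ 2 < 1 := by
    rw [div_lt_one (by positivity)]
    nlinarith
  have h2 : 0 < 1 / ((k : ℝ) + 2) ^ 2 := by positivity
  exact ⟨by linarith, by linarith⟩

theorem sk_norm (k i : ℕ) : ‖sk k i‖ ≤ bk k := by
  have h := (bk_mem k).1
  have h1 : ‖(bk k : ℂ)‖ = bk k := by
    rw [Complex.norm_real, Real.norm_of_nonneg h.le]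
  unfold sk
  split_ifs
  · rw [norm_neg, h1]
  · rw [h1]
  · rw [norm_zero]
    exact h.le

theorem stick_sk (k : ℕ) : stick k (sk k) = (cc k : ℂ) := by
  have h1 : ∀ i ∈ Finset.range k, ((1 - sk k i) / 2) ^ 2 = ((1 + (bk k : ℂ)) / 2) ^ 2 := by
    intro i hi
    rw [sk, if_pos (Finset.mem_range.1 hi), sub_neg_eq_add]
  have h2 : sk k k = (bk k : ℂ) := by
    rw [sk, if_neg (lt_irrefl k), if_pos rfl]
  rw [stick, h2, Finset.prod_congr rfl h1, Finset.prod_const, Finset.card_range, cc, pow_succ' _ k]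
  push_cast
  rfl

theorem cc_mem (k : ℕ) : 0 < cc k ∧ cc k < 1 := by
  obtain ⟨h1, h2⟩ := bk_mem k
  have h3 : 0 < ((1 + bk k) / 2) ^ 2 := pow_pos (by linarith) 2
  have h4 : ((1 + bk k) / 2) ^ 2 < 1 := pow_lt_one₀ (by linarith) (by linarith) (by norm_num)
  exact ⟨pow_pos h3 _, pow_lt_one₀ h3.le h4 (by omega)⟩

theorem cc_ge (k : ℕ) : 1 - 1 / ((k : ℝ) + 2) ≤ cc k := by
  have h : (0 : ℝ) ≤ k := Nat.cast_nonneg k
  have h0 : (0 : ℝ) < (k : ℝ) + 2 := by positivity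
  have h1 : (1 + bk k) / 2 = 1 + (-(1 / (2 * ((k : ℝ) + 2) ^ 2))) := by
    unfold bk
    field_simp
    ring
  have h2 : (-2 : ℝ) ≤ -(1 / (2 * ((k : ℝ) + 2) ^ 2)) := by
    have : 1 / (2 * ((k : ℝ) + 2) ^ 2) ≤ 1 := by
      rw [div_le_one (by positivity)]
      nlinarith
    linarith
  have h3 := one_add_mul_le_pow h2 (2 * (k + 1))
  rw [cc, ← pow_mul, h1]
  refine le_trans ?_ h3
  have h4 : ((2 * (k + 1) : ℕ) : ℝ) * -(1 / (2 * ((k : ℝ) + 2) ^ 2)) = -(((k : ℝ) + 1) / ((k : ℝ) + 2) ^ 2) := by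
    push_cast
    field_simp
  rw [h4]
  have h5 : ((k : ℝ) + 1) / ((k : ℝ) + 2) ^ 2 ≤ 1 / ((k : ℝ) + 2) := by
    rw [div_le_div_iff₀ (by positivity) h0]
    nlinarith
  linarith

theorem cc_tendsto : Tendsto cc atTop (𝓝 1) := by
  have h1 : Tendsto (fun k : ℕ => 1 - 1 / ((k : ℝ) + 2)) atTop (𝓝 1) := by
    have h3 : Tendsto (fun k : ℕ => (k : ℝ) + 2) atTop atTop :=
      tendsto_atTop_add_const_right _ _ tendsto_natCast_atTop_atTop
    have h2 : Tendsto (fun k : ℕ => 1 / ((k : ℝ) + 2)) atTop (𝓝 0) :=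
      (tendsto_const_nhds (x := (1 : ℝ))).div_atTop h3
    simpa using h2.const_sub 1
  exact tendsto_of_tendsto_of_tendsto_of_le_of_le h1 tendsto_const_nhds cc_ge fun k => (cc_mem k).2.le

/-- sums with the weights `stick k s` of points of the open unit ball -/
theorem stick_ball {X : Type*} [NormedAddCommGroup X] [NormedSpace ℂ X] {s : ℕ → ℂ}
    (hs : ∀ i, ‖s i‖ ≤ 1) {v : ℕ → X} (hv : ∀ k, ‖v k‖ < 1) :
    Summable (fun k => ‖stick k s • v k‖) ∧ ‖∑' k, stick k s • v k‖ < 1 := by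
  have h0 : ∀ k, ‖stick k s • v k‖ ≤ ‖stick k s‖ := by
    intro k
    rw [norm_smul]
    exact mul_le_of_le_one_right (norm_nonneg _) (hv k).le
  have h1 : Summable fun k => ‖stick k s • v k‖ :=
    (stick_summable hs).of_nonneg_of_le (fun _ => norm_nonneg _) h0
  refine ⟨h1, ?_⟩
  refine (norm_tsum_le_tsum_norm h1).trans_lt ?_
  by_cases hz : ∀ k, stick k s = 0
  · have : (fun k => ‖stick k s • v k‖) = fun _ => (0 : ℝ) := by
      funext k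
      rw [hz k, zero_smul, norm_zero]
    rw [this, tsum_zero]
    exact one_pos
  · push Not at hz
    obtain ⟨k, hk⟩ := hz
    refine lt_of_lt_of_le ?_ (stick_tsum_le hs)
    refine Summable.tsum_lt_tsum (i := k) h0 ?_ h1 (stick_summable hs)
    show ‖stick k s • v k‖ < ‖stick k s‖
    rw [norm_smul]
    exact mul_lt_of_lt_one_right (norm_pos_iff.2 hk) (hv k)

end Pool.Agent.MPca0fc2.FP
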