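import Mathlib

/-! Campaign FP, row 2: the space `c₀`. -/

set_option autoImplicit false

open Metric Set Filter Topology
open scoped ZeroAtInfty

namespace Pool.Agent.MPca0fc2.FP

/-- `c₀` -/
abbrev c0 := C₀(ℕ, ℂ)

theorem coord_le (x : c0) (i : ℕ) : ‖x i‖ ≤ ‖x‖ := by
  rw [← ZeroAtInftyContinuousMap.norm_toBCF_eq_norm]
  exact x.toBCF.norm_coe_le_norm i

/-- the coordinate as a continuous linear map -/
noncomputable def coordL (i : ℕ) : c0 →L[ℂ] ℂ :=
  LinearMap.mkContinuous
    { toFun := fun x : c0 => x i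
      map_add' := fun _ _ => rfl
      map_smul' := fun _ _ => rfl } 1 (fun x => by
        rw [one_mul]
        exact coord_le x i)

theorem coord_diff (i : ℕ) : Differentiable ℂ (fun x : c0 => x i) :=
  (coordL i).differentiable

/-- the basis vectors -/
noncomputable def sg (m : ℕ) : c0 where
  toFun i := if i = m then 1 else 0
  continuous_toFun := continuous_of_discreteTopology
  zero_at_infty' := by
    rw [cocompact_eq_cofinite, Nat.cofinite_eq_atTop]
    refine tendsto_const_nhds.congr' ?_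
    filter_upwards [eventually_gt_atTop m] with i hi
    rw [if_neg (Nat.ne_of_gt hi)]

theorem sg_apply (m i : ℕ) : sg m i = if i = m then 1 else 0 := rfl

/-- finite vectors in the coordinates `pos j`, `j : ι` -/
noncomputable def emb {ι : Type*} (pos : ι → ℕ) (F : Finset ι) (a : ι → ℂ) : c0 :=
  ∑ j ∈ F, a j • sg (pos j)

theorem emb_val {ι : Type*} (pos : ι → ℕ) (F : Finset ι) (a : ι → ℂ) (i : ℕ) :
    emb pos F a i = ∑ j ∈ F, a j * (if i = pos j then 1 else 0) := by
  have h : emb pos F a i = coordL i (emb pos F a) := rfl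
  rw [h, emb, map_sum]
  refine Finset.sum_congr rfl fun j _ => ?_
  rw [map_smul, smul_eq_mul]
  rfl

open Classical in
theorem emb_apply {ι : Type*} {pos : ι → ℕ} (hp : Function.Injective pos) (F : Finset ι) (a : ι → ℂ)
    (i : ι) : emb pos F a (pos i) = if i ∈ F then a i else 0 := by
  rw [emb_val]
  simp only [hp.eq_iff, mul_ite, mul_one, mul_zero]
  rw [Finset.sum_ite_eq]

theorem emb_norm {ι : Type*} {pos : ι → ℕ} (hp : Function.Injective pos) {F : Finset ι} {a : ι → ℂ}
    {b : ℝ} (hb : 0 ≤ b) (h : ∀ j ∈ F, ‖a j‖ ≤ b) : ‖emb pos F a‖ ≤ b := by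
  classical
  rw [← ZeroAtInftyContinuousMap.norm_toBCF_eq_norm, BoundedContinuousFunction.norm_le hb]
  intro i
  change ‖emb pos F a i‖ ≤ b
  by_cases hi : ∃ j, pos j = i
  · obtain ⟨j, rfl⟩ := hi
    rw [emb_apply hp]
    split_ifs with hj
    · exact h j hj
    · rw [norm_zero]
      exact hb
  · rw [emb_val, Finset.sum_eq_zero, norm_zero]
    · exact hb
    · intro j _
      rw [if_neg (fun hc => hi ⟨j, hc.symm⟩), mul_zero]

theorem emb_diff {ι E : Type*} [NormedAddCommGroup E] [NormedSpace ℂ E] {pos : ι → ℕ} {F : Finset ι}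
    {a : E → ι → ℂ} {U : Set E} (h : ∀ j ∈ F, DifferentiableOn ℂ (fun x => a x j) U) :
    DifferentiableOn ℂ (fun x => emb pos F (a x)) U := by
  have h1 : DifferentiableOn ℂ (fun x => ∑ j ∈ F, a x j • sg (pos j)) U :=
    DifferentiableOn.fun_sum fun j hj => (h j hj).smul_const (sg (pos j))
  exact h1

end Pool.Agent.MPca0fc2.FP
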