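import Mathlib

/-! Campaign FP, row 3: sums of holomorphic maps on the unit ball of a Banach space. -/

set_option autoImplicit false

open Metric Set Filter Topology

namespace Pool.Agent.MPca0fc2.FP

/-- Cauchy's estimate for the derivative -/
theorem norm_fderiv_le {E F : Type*} [NormedAddCommGroup E] [NormedSpace ℂ E] [NormedAddCommGroup F]
    [NormedSpace ℂ F] [CompleteSpace F] {T : E → F} {ρ σ C : ℝ} (hσ : 0 < σ) (hρσ : ρ + σ ≤ 1) (hC : 0 ≤ C)
    (hT : DifferentiableOn ℂ T (ball 0 1)) (hb : ∀ x ∈ ball (0 : E) (ρ + σ), ‖T x‖ ≤ C) {x : E}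
    (hx : x ∈ ball (0 : E) ρ) : ‖fderiv ℂ T x‖ ≤ C / σ := by
  refine ContinuousLinearMap.opNorm_le_bound _ (by positivity) fun v => ?_
  by_cases hv : v = 0
  · rw [hv, map_zero, norm_zero, norm_zero, mul_zero]
  have hv0 : 0 < ‖v‖ := norm_pos_iff.2 hv
  rw [mem_ball_zero_iff] at hx
  have hmem : ∀ z : ℂ, ‖z‖ * ‖v‖ < σ → x + z • v ∈ ball (0 : E) (ρ + σ) := by
    intro z hz
    rw [mem_ball_zero_iff]
    refine (norm_add_le _ _).trans_lt ?_
    rw [norm_smul]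
    linarith
  have hsub : ball (0 : E) (ρ + σ) ⊆ ball 0 1 := ball_subset_ball hρσ
  have hdT : ∀ y ∈ ball (0 : E) (ρ + σ), DifferentiableAt ℂ T y := fun y hy =>
    (hT y (hsub hy)).differentiableAt (isOpen_ball.mem_nhds (hsub hy))
  have hg : ∀ z : ℂ, ‖z‖ * ‖v‖ < σ → DifferentiableAt ℂ (fun z : ℂ => T (x + z • v)) z := by
    intro z hz
    refine DifferentiableAt.comp z (hdT _ (hmem z hz)) ?_
    fun_prop
  have hder : deriv (fun z : ℂ => T (x + z • v)) 0 = fderiv ℂ T x v := by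
    have h0 : x + (0 : ℂ) • v = x := by simp
    have h1 : HasDerivAt (fun z : ℂ => x + z • v) v 0 := by
      simpa using ((hasDerivAt_id (0 : ℂ)).smul_const v).const_add x
    have h2 : HasFDerivAt T (fderiv ℂ T x) (x + (0 : ℂ) • v) := by
      rw [h0]
      refine (hdT x ?_).hasFDerivAt
      rw [mem_ball_zero_iff]
      linarith
    exact (h2.comp_hasDerivAt (0 : ℂ) h1).deriv
  have hest : ∀ r : ℝ, 0 < r → r * ‖v‖ < σ → ‖fderiv ℂ T x v‖ ≤ C / r := by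
    intro r hr hrv
    have h1 : ∀ z ∈ closedBall (0 : ℂ) r, ‖z‖ * ‖v‖ < σ := by
      intro z hz
      rw [mem_closedBall_zero_iff] at hz
      exact lt_of_le_of_lt (mul_le_mul_of_nonneg_right hz hv0.le) hrv
    rw [← hder]
    refine Complex.norm_deriv_le_of_forall_mem_sphere_norm_le hr ?_ ?_
    · refine DifferentiableOn.diffContOnCl ?_
      rw [closure_ball _ hr.ne']
      exact fun z hz => (hg z (h1 z hz)).differentiableWithinAt
    · exact fun z hz => hb _ (hmem z (h1 z (sphere_subset_closedBall hz)))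
  -- let `r` tend to `σ / ‖v‖`
  have hlim : Tendsto (fun r : ℝ => C / r) (𝓝[<] (σ / ‖v‖)) (𝓝 (C / (σ / ‖v‖))) := by
    refine Tendsto.mono_left ?_ nhdsWithin_le_nhds
    exact tendsto_const_nhds.div tendsto_id (div_pos hσ hv0).ne'
  have hev : ∀ᶠ r in 𝓝[<] (σ / ‖v‖), ‖fderiv ℂ T x v‖ ≤ C / r := by
    have h1 : ∀ᶠ r in 𝓝[<] (σ / ‖v‖), 0 < r :=
      mem_nhdsWithin_of_mem_nhds (Ioi_mem_nhds (div_pos hσ hv0))
    filter_upwards [h1, self_mem_nhdsWithin] with r hr hr2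
    exact hest r hr ((lt_div_iff₀ hv0).1 hr2)
  have h3 := ge_of_tendsto hlim hev
  calc ‖fderiv ℂ T x v‖ ≤ C / (σ / ‖v‖) := h3
    _ = C / σ * ‖v‖ := by
      field_simp

/-- Weierstrass -/
theorem differentiableOn_tsum_ball {E F : Type*} [NormedAddCommGroup E] [NormedSpace ℂ E]
    [NormedAddCommGroup F] [NormedSpace ℂ F] [CompleteSpace F] {T : ℕ → E → F}
    (hT : ∀ k, DifferentiableOn ℂ (T k) (ball 0 1)) {q : ℝ → ℕ → ℝ}
    (hq : ∀ ρ, 0 < ρ → ρ < 1 → Summable (q ρ))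
    (hb : ∀ ρ, 0 < ρ → ρ < 1 → ∀ k, ∀ x ∈ ball (0 : E) ρ, ‖T k x‖ ≤ q ρ k) :
    DifferentiableOn ℂ (fun x => ∑' k, T k x) (ball 0 1) := by
  intro x hx
  rw [mem_ball_zero_iff] at hx
  obtain ⟨ρ, h1, h2⟩ := exists_between hx
  have hρ0 : 0 < ρ := (norm_nonneg x).trans_lt h1
  obtain ⟨ρ', h3, h4⟩ := exists_between h2
  have hρ'0 : 0 < ρ' := hρ0.trans h3
  have hσ : 0 < ρ' - ρ := sub_pos.2 h3
  have hs := hq ρ' hρ'0 h4
  have h0 : ∀ k, 0 ≤ q ρ' k := fun k => (norm_nonneg _).trans (hb ρ' hρ'0 h4 k 0 (mem_ball_self hρ'0))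
  have hsub : ball (0 : E) ρ ⊆ ball 0 1 := ball_subset_ball h2.le
  have hpre : IsPreconnected (ball (0 : E) ρ) := by
    have := NormedSpace.restrictScalars ℝ ℂ E
    exact (convex_ball (0 : E) ρ).isPreconnected
  have hd : ∀ (k : ℕ) (y : E), y ∈ ball (0 : E) ρ → HasFDerivAt (T k) (fderiv ℂ (T k) y) y :=
    fun k y hy => ((hT k y (hsub hy)).differentiableAt (isOpen_ball.mem_nhds (hsub hy))).hasFDerivAt
  have hn : ∀ (k : ℕ) (y : E), y ∈ ball (0 : E) ρ → ‖fderiv ℂ (T k) y‖ ≤ q ρ' k / (ρ' - ρ) := by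
    intro k y hy
    refine norm_fderiv_le hσ (by linarith) (h0 k) (hT k) (fun z hz => hb ρ' hρ'0 h4 k z ?_) hy
    rwa [add_sub_cancel] at hz
  have hsum0 : Summable fun k => T k 0 :=
    Summable.of_norm_bounded hs fun k => hb ρ' hρ'0 h4 k 0 (mem_ball_self hρ'0)
  have h5 := hasFDerivAt_tsum_of_isPreconnected (hs.div_const (ρ' - ρ)) isOpen_ball hpre hd hn
    (mem_ball_self hρ0) hsum0 (mem_ball_zero_iff.2 h1)
  exact h5.differentiableAt.differentiableWithinAt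

end Pool.Agent.MPca0fc2.FP
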