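import Pool.Agent.Lib.MP_ca0fc2_an.XC.AD

/-! Q1 on all strictly pseudoconvex domains is Q1 on the ball, for each number of functions. -/

set_option autoImplicit false

open Metric Set Filter MeasureTheory
open scoped NNReal
open Pool.Agent.Lib.MP_ca0fc2_an
open Pool.Agent.Lib.MP_ca0fc2_an.ZL

namespace Pool.Agent.MPca0fc2AD

theorem core {n N : ℕ} (hn : 2 ≤ n) :
    List.TFAE [
      -- (a) Q1 for `N` functions on all strictly pseudoconvex domains in `ℂᵐ`, `2 ≤ m ≤ n`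
      ∀ m, 2 ≤ m → m ≤ n → ∀ D : Set (EuclideanSpace ℂ (Fin m)), IsStrictlyPscDomain D → Q1On N D,
      -- (b) Q1 for `N` functions on one nonempty bounded open set in `ℂⁿ` with a `C²` boundary
      ∃ D : Set (EuclideanSpace ℂ (Fin n)), Bornology.IsBounded D ∧ HasC2Boundary D ∧
        D.Nonempty ∧ Q1On N D,
      -- (c) Q1 for `N` functions on the ball of `ℂⁿ`
      Q1On N (ball (0 : EuclideanSpace ℂ (Fin n)) 1),
      -- (d) the same with uniform bounds
      ∀ δ > 0, ∃ A : ℝ, UniformQ1 N δ A (ball (0 : EuclideanSpace ℂ (Fin n)) 1) (ball 0 1),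
      -- (e) local solutions near all boundary points of all domains, with uniform bounds
      ∀ δ > 0, ∃ A : ℝ, ∀ D : Set (EuclideanSpace ℂ (Fin n)), IsStrictlyPscDomain D →
        ∀ p ∈ frontier D, ∀ s > 0, ∃ r > 0, UniformQ1 N δ A (D ∩ ball p s) (D ∩ ball p r),
      -- (f) bounded solutions near `p`, for data on the ball with one singular boundary point `p`
      ∀ p ∈ sphere (0 : EuclideanSpace ℂ (Fin n)) 1, OnePoint N (ball 0 1) p 1,
      -- (g) solutions of a fixed, arbitrary growth near one point of one strictly pseudoconvex domain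
      ∃ (D : Set (EuclideanSpace ℂ (Fin n))) (p : EuclideanSpace ℂ (Fin n)) (φ : ℝ → ℝ≥0),
        IsStrictlyPscDomain D ∧ p ∈ frontier D ∧ AntitoneOn φ (Ioi 0) ∧ OnePoint N D p φ] := by
  have hn1 : 1 ≤ n := by omega
  tfae_have 4 → 3 := by
    intro hb f hf hδ
    obtain ⟨δ, hδ0, hA⟩ := exists_of_uniform hf hδ
    obtain ⟨A, hA'⟩ := hb δ hδ0
    exact hA _ A hA'
  tfae_have 3 → 6 := fun ha p _ => onePoint_of_q1 ha p
  tfae_have 6 → 7 := by
    intro hc
    have hp : (EuclideanSpace.single ⟨0, hn1⟩ 1 : EuclideanSpace ℂ (Fin n)) ∈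
        sphere (0 : EuclideanSpace ℂ (Fin n)) 1 := by
      rw [mem_sphere_zero_iff_norm]
      simp
    exact ⟨ball 0 1, _, 1, Pool.Agent.MPca0fc2.TB.isStrictlyPscDomain_ball,
      by rw [frontier_ball _ one_ne_zero]; exact hp, antitoneOn_const, hc _ hp⟩
  tfae_have 7 → 4 := by
    rintro ⟨D, p, φ, hD, hp, hφ, hc⟩
    exact uniform_of_growth hn1 hD hp hφ hc
  tfae_have 4 → 5 := by
    intro hb δ hδ
    obtain ⟨A, hA⟩ := hb (δ / 2) (by positivity)
    refine ⟨|A| + 1, fun D hD p hp s hs => ?_⟩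
    obtain ⟨r, hr, -, hloc⟩ := Pool.Agent.MPca0fc2.EQ.loc_psc hD hp (N := N) (abs_nonneg A)
      (half_pos hδ) (half_lt_self hδ) (lt_add_one |A|) hs
      ((uniformQ1_iff (half_pos hδ) (abs_nonneg A)).1 (hA.mono le_rfl))
    exact ⟨r, hr, (uniformQ1_iff hδ (by positivity)).2 hloc⟩
  tfae_have 5 → 6 := by
    intro he p hp f hf _ hδ
    have hf' : ∀ j, IsHinf (ball (0 : EuclideanSpace ℂ (Fin n)) 1 ∩ ball p 1) (f j) := fun j =>
      ⟨(hf j).1.mono inter_subset_left, (hf j).2.imp fun M hM z hz => hM z hz.1⟩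
    obtain ⟨δ, hδ0, hA⟩ := exists_of_uniform hf'
      (hδ.imp fun δ h => ⟨h.1, fun z hz => h.2 z hz.1⟩)
    obtain ⟨A, hA'⟩ := he δ hδ0
    obtain ⟨r, hr, hr'⟩ := hA' _ Pool.Agent.MPca0fc2.TB.isStrictlyPscDomain_ball p
      (by rw [frontier_ball _ one_ne_zero]; exact hp) 1 one_pos
    obtain ⟨h, hh, hh1⟩ := hA _ A hr'
    choose hd M hM using hh
    refine ⟨r, hr, ∑ j, |M j|, h, hd, fun z hz => ⟨hh1 z hz, fun j => ?_⟩⟩
    simp only [Pi.one_apply, NNReal.coe_one, mul_one]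
    exact (hM j z hz).trans ((le_abs_self _).trans
      (Finset.single_le_sum (f := fun j => |M j|) (fun _ _ => abs_nonneg _) (Finset.mem_univ j)))
  tfae_have 4 → 1 := by
    intro hb m hm hmn D hD f hf hδ
    obtain ⟨δ, hδ, hfδ⟩ := hδ
    obtain ⟨C, h, h1, h2, h3⟩ := Pool.Agent.MPca0fc2.EQ.psc_of_tg hm (N := N) (by
      intro T s δ' f' hs hδ' hf' hfb
      obtain ⟨A, hA⟩ := hb (δ' / 2) (half_pos hδ')
      obtain ⟨s₁, hs₁, -, hloc⟩ := Pool.Agent.MPca0fc2.EQ.local_tg_sharp T (N := N) (abs_nonneg A)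
        (half_pos hδ') (half_lt_self hδ') (lt_add_one |A|) hs
        (Pool.Agent.MPca0fc2.EQ.ball_dim hmn
          ((uniformQ1_iff (half_pos hδ') (abs_nonneg A)).1 (hA.mono le_rfl)))
      exact ⟨s₁, hs₁, |A| + 1, hloc f' hf' hfb⟩) hD hf hδ hfδ
    exact ⟨h, fun j => ⟨h1 j, C, h2 j⟩, h3⟩
  tfae_have 1 → 2 := fun hQ =>
    have hB := Pool.Agent.MPca0fc2.TB.isStrictlyPscDomain_ball (n := n)
    ⟨ball 0 1, hB.1, hasC2Boundary_of_psc hB, ⟨0, mem_ball_self one_pos⟩, hQ n hn le_rfl _ hB⟩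
  tfae_have 2 → 4 := by
    rintro ⟨D, hb, h2, hne, hQ⟩
    obtain ⟨hDo, p, hp, hacc⟩ := Pool.Agent.MPca0fc2.EQ.far_seq hn1 hb h2 hne
    exact uniform_of_onePoint hDo hp hacc (onePoint_of_q1 hQ p)
  tfae_finish

end Pool.Agent.MPca0fc2AD
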