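import Pool.Agent.Lib.MP_ca0fc2_an.FP.P2
import Pool.Agent.Lib.MP_ca0fc2_an.FP.P3

/-! Campaign FP, row 7: solutions on the finite dimensional sections of the ball of `c₀`. -/

set_option autoImplicit false

open Metric Set Filter Topology
open scoped ZeroAtInfty

namespace Pool.Agent.MPca0fc2.FP

/-- The remainder of the second order in one variable. -/
theorem taylor_one {φ : ℂ → ℂ} {R C : ℝ} (hR : 2 ≤ R) (hφ : DifferentiableOn ℂ φ (ball 0 R))
    (hb : ∀ z ∈ ball (0 : ℂ) R, ‖φ z‖ ≤ C) : ‖φ 1 - φ 0 - deriv φ 0‖ ≤ 4 * C / R ^ 2 := by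
  have hR0 : 0 < R := by linarith
  have h0 : (0 : ℂ) ∈ ball (0 : ℂ) R := mem_ball_self hR0
  have h1 : (1 : ℂ) ∈ ball (0 : ℂ) R := by
    rw [mem_ball_zero_iff, norm_one]
    linarith
  have hn : ball (0 : ℂ) R ∈ 𝓝 (0 : ℂ) := isOpen_ball.mem_nhds h0
  have hψ : DifferentiableOn ℂ (dslope φ 0) (ball 0 R) := (Complex.differentiableOn_dslope hn).2 hφ
  have hψb : ∀ z ∈ ball (0 : ℂ) R, ‖dslope φ 0 z‖ ≤ 2 * C / R := fun z hz =>
    Complex.norm_dslope_le_div_of_mapsTo_ball hφ (fun w hw => by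
      rw [mem_closedBall_iff_norm]
      refine (norm_sub_le _ _).trans ?_
      have := hb w hw
      have := hb 0 h0
      linarith) hz
  have h2 : ‖dslope (dslope φ 0) 0 1‖ ≤ 4 * C / R / R :=
    Complex.norm_dslope_le_div_of_mapsTo_ball hψ (fun w hw => by
      rw [mem_closedBall_iff_norm]
      refine (norm_sub_le _ _).trans ?_
      have h3 := hψb w hw
      have h4 := hψb 0 h0
      have h5 : 4 * C / R = 2 * C / R + 2 * C / R := by ring
      linarith) h1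
  have h3 : dslope (dslope φ 0) 0 1 = φ 1 - φ 0 - deriv φ 0 := by
    rw [dslope_of_ne _ one_ne_zero, slope_def_field, dslope_same, dslope_of_ne _ one_ne_zero,
      slope_def_field]
    simp
  rw [h3, div_div, ← pow_two] at h2
  exact h2

variable {E : Type*} [NormedAddCommGroup E] [NormedSpace ℂ E]

/-- The remainder of the second order. -/
theorem taylor_E {F : E → ℂ} {C : ℝ} (hF : DifferentiableOn ℂ F (ball 0 1))
    (hb : ∀ x ∈ ball (0 : E) 1, ‖F x‖ ≤ C) {x v : E} (hx : ‖x‖ < 1) (hv : ‖v‖ ≤ (1 - ‖x‖) / 2) :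
    ‖F (x + v) - F x - fderiv ℂ F x v‖ ≤ 4 * C / (1 - ‖x‖) ^ 2 * ‖v‖ ^ 2 := by
  rcases eq_or_ne v 0 with rfl | hv0
  · simp
  have hvp : 0 < ‖v‖ := norm_pos_iff.2 hv0
  have hd : 0 < 1 - ‖x‖ := by linarith
  set R : ℝ := (1 - ‖x‖) / ‖v‖ with hRdef
  have hR : 2 ≤ R := by
    rw [hRdef, le_div_iff₀ hvp]
    linarith
  have hmem : ∀ z ∈ ball (0 : ℂ) R, x + z • v ∈ ball (0 : E) 1 := by
    intro z hz
    rw [mem_ball_zero_iff] at hz ⊢
    rw [hRdef, lt_div_iff₀ hvp] at hz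
    refine (norm_add_le _ _).trans_lt ?_
    rw [norm_smul]
    linarith
  have haff : Differentiable ℂ fun z : ℂ => x + z • v :=
    (differentiable_const x).add (differentiable_id.smul_const v)
  have h1 := taylor_one (φ := fun z => F (x + z • v)) hR (hF.comp haff.differentiableOn hmem)
    (fun z hz => hb _ (hmem z hz))
  have h2 : deriv (fun z : ℂ => F (x + z • v)) 0 = fderiv ℂ F x v := by
    have h3 : HasFDerivAt F (fderiv ℂ F x) (x + (0 : ℂ) • v) := by
      rw [zero_smul, add_zero]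
      exact (hF.differentiableAt (isOpen_ball.mem_nhds (mem_ball_zero_iff.2 hx))).hasFDerivAt
    have h4 : HasDerivAt (fun z : ℂ => x + z • v) v 0 := by
      have h5 : HasDerivAt (fun z : ℂ => z • v) ((1 : ℂ) • v) 0 := (hasDerivAt_id (0 : ℂ)).smul_const v
      rw [one_smul] at h5
      exact h5.const_add x
    exact (h3.comp_hasDerivAt (0 : ℂ) h4).deriv
  simp only [one_smul, zero_smul, add_zero] at h1
  rw [h2] at h1
  refine h1.trans (le_of_eq ?_)
  rw [hRdef]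
  field_simp

/-- Limits of bounded sequences of holomorphic functions along an ultrafilter. -/
theorem ultra_ball (𝒰 : Ultrafilter ℕ) {F : ℕ → E → ℂ} {C : ℝ} (hC : 0 ≤ C)
    (hd : ∀ k, DifferentiableOn ℂ (F k) (ball 0 1)) (hb : ∀ k, ∀ x ∈ ball (0 : E) 1, ‖F k x‖ ≤ C) :
    ∃ g : E → ℂ, DifferentiableOn ℂ g (ball 0 1) ∧
      ∀ x ∈ ball (0 : E) 1, Tendsto (fun k => F k x) 𝒰 (𝓝 (g x)) := by
  have hlim : ∀ (a : ℕ → ℂ) (M : ℝ), (∀ k, ‖a k‖ ≤ M) → ∃ b, Tendsto a 𝒰 (𝓝 b) := by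
    intro a M ha
    have hc : IsCompact (closedBall (0 : ℂ) M) := isCompact_closedBall 0 M
    obtain ⟨y, -, hy2⟩ := hc.ultrafilter_le_nhds' (𝒰.map a) (by
      rw [Ultrafilter.mem_map]
      exact Filter.univ_mem' fun k => mem_closedBall_zero_iff.mpr (ha k))
    exact ⟨y, hy2⟩
  have h1 : ∀ x : E, ∃ b, x ∈ ball (0 : E) 1 → Tendsto (fun k => F k x) 𝒰 (𝓝 b) := by
    intro x
    by_cases hx : x ∈ ball (0 : E) 1
    · obtain ⟨b, hb'⟩ := hlim (fun k => F k x) C fun k => hb k x hx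
      exact ⟨b, fun _ => hb'⟩
    · exact ⟨0, fun h => absurd h hx⟩
  choose g hg using h1
  refine ⟨g, fun x hx => ?_, hg⟩
  have hx1 : ‖x‖ < 1 := mem_ball_zero_iff.1 hx
  have hd0 : 0 < 1 - ‖x‖ := by linarith
  -- the derivative
  have hder : ∀ k, ‖fderiv ℂ (F k) x‖ ≤ C / ((1 - ‖x‖) / 2) := fun k =>
    norm_fderiv_le (ρ := (1 + ‖x‖) / 2) (by linarith) (by linarith) hC (hd k)
      (fun y hy => hb k y (ball_subset_ball (by linarith) hy))
      (by rw [mem_ball_zero_iff]; linarith)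
  have h2 : ∀ v : E, ∃ b, Tendsto (fun k => fderiv ℂ (F k) x v) 𝒰 (𝓝 b) := fun v =>
    hlim _ (C / ((1 - ‖x‖) / 2) * ‖v‖) fun k =>
      ((fderiv ℂ (F k) x).le_opNorm v).trans (mul_le_mul_of_nonneg_right (hder k) (norm_nonneg v))
  choose L hL using h2
  let L' : E →L[ℂ] ℂ := LinearMap.mkContinuous
    { toFun := L
      map_add' := fun v w => tendsto_nhds_unique (hL (v + w)) (((hL v).add (hL w)).congr fun k =>
        (map_add (fderiv ℂ (F k) x) v w).symm)
      map_smul' := fun c v => tendsto_nhds_unique (hL (c • v)) (((hL v).const_smul c).congr fun k =>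
        (map_smul (fderiv ℂ (F k) x) c v).symm) } (C / ((1 - ‖x‖) / 2)) (fun v =>
      le_of_tendsto (hL v).norm (Eventually.of_forall fun k =>
        ((fderiv ℂ (F k) x).le_opNorm v).trans (mul_le_mul_of_nonneg_right (hder k) (norm_nonneg v))))
  have hL' : ∀ v, L' v = L v := fun v => rfl
  -- the remainder
  have h3 : ∀ v : E, ‖v‖ ≤ (1 - ‖x‖) / 2 →
      ‖g (x + v) - g x - L' v‖ ≤ 4 * C / (1 - ‖x‖) ^ 2 * ‖v‖ ^ 2 := by
    intro v hv
    have hxv : x + v ∈ ball (0 : E) 1 := by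
      rw [mem_ball_zero_iff]
      refine (norm_add_le _ _).trans_lt ?_
      linarith
    have h4 := ((hg (x + v) hxv).sub (hg x hx)).sub (hL v)
    rw [hL']
    exact le_of_tendsto h4.norm (Eventually.of_forall fun k => taylor_E (hd k) (hb k) hx1 hv)
  have h5 : HasFDerivAt g L' x := by
    rw [hasFDerivAt_iff_isLittleO_nhds_zero]
    have h6 : (fun v => g (x + v) - g x - L' v) =O[𝓝 0] fun v => ‖v‖ ^ 2 := by
      refine Asymptotics.IsBigO.of_bound (4 * C / (1 - ‖x‖) ^ 2) ?_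
      filter_upwards [closedBall_mem_nhds (0 : E) (half_pos hd0)] with v hv
      rw [mem_closedBall_zero_iff] at hv
      rw [norm_pow, norm_norm]
      exact h3 v hv
    exact h6.trans_isLittleO (Asymptotics.isLittleO_norm_pow_id one_lt_two)
  exact h5.differentiableAt.differentiableWithinAt

/-- The point `(t_0, …, t_{m-1}, 0, 0, …)` of `c₀`. -/
def sec (m : ℕ) (t : Fin m → ℂ) : C₀(ℕ, ℂ) where
  toFun i := if h : i < m then t ⟨i, h⟩ else 0
  continuous_toFun := continuous_of_discreteTopology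
  zero_at_infty' := by
    rw [cocompact_eq_cofinite, Nat.cofinite_eq_atTop]
    refine tendsto_const_nhds.congr' ?_
    filter_upwards [eventually_ge_atTop m] with i hi
    rw [dif_neg (not_lt.2 hi)]

theorem sec_apply (m : ℕ) (t : Fin m → ℂ) (i : ℕ) :
    sec m t i = if h : i < m then t ⟨i, h⟩ else 0 := rfl

theorem norm_le_of_forall {x : C₀(ℕ, ℂ)} {b : ℝ} (hb : 0 ≤ b) (h : ∀ i, ‖x i‖ ≤ b) : ‖x‖ ≤ b := by
  rw [← ZeroAtInftyContinuousMap.norm_toBCF_eq_norm, BoundedContinuousFunction.norm_le hb]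
  exact h

theorem sec_norm_le (m : ℕ) (t : Fin m → ℂ) : ‖sec m t‖ ≤ ‖t‖ := by
  refine norm_le_of_forall (norm_nonneg t) fun i => ?_
  rw [sec_apply]
  split_ifs with h
  · exact norm_le_pi_norm t _
  · rw [norm_zero]
    exact norm_nonneg t

theorem sec_mem {m : ℕ} {t : Fin m → ℂ} (ht : t ∈ ball (0 : Fin m → ℂ) 1) :
    sec m t ∈ ball (0 : C₀(ℕ, ℂ)) 1 := by
  rw [mem_ball_zero_iff] at ht ⊢
  exact (sec_norm_le m t).trans_lt ht

/-- `sec m` is linear. -/
noncomputable def secL (m : ℕ) : (Fin m → ℂ) →L[ℂ] C₀(ℕ, ℂ) :=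
  LinearMap.mkContinuous
    { toFun := sec m
      map_add' := fun s t => by
        refine DFunLike.ext _ _ fun i => ?_
        rw [ZeroAtInftyContinuousMap.coe_add, Pi.add_apply, sec_apply, sec_apply, sec_apply]
        split_ifs with h
        · rfl
        · rw [add_zero]
      map_smul' := fun c t => by
        refine DFunLike.ext _ _ fun i => ?_
        rw [ZeroAtInftyContinuousMap.coe_smul, Pi.smul_apply, sec_apply, sec_apply]
        split_ifs with h
        · rfl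
        · exact (smul_zero c).symm } 1 (fun t => by
      rw [one_mul]
      exact sec_norm_le m t)

theorem sec_diff (m : ℕ) : Differentiable ℂ (sec m) := (secL m).differentiable

theorem tendsto_sec (x : C₀(ℕ, ℂ)) : Tendsto (fun m => sec m fun i => x i) atTop (𝓝 x) := by
  rw [Metric.tendsto_atTop]
  intro ε hε
  have h1 : Tendsto (fun i => ‖x i‖) atTop (𝓝 0) := by
    have h2 := x.zero_at_infty'
    rw [cocompact_eq_cofinite, Nat.cofinite_eq_atTop] at h2
    exact tendsto_zero_iff_norm_tendsto_zero.1 h2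
  obtain ⟨m₀, hm₀⟩ := eventually_atTop.1 (h1.eventually (Iio_mem_nhds (half_pos hε)))
  refine ⟨m₀, fun m hm => ?_⟩
  rw [dist_eq_norm]
  refine lt_of_le_of_lt (norm_le_of_forall (half_pos hε).le fun i => ?_) (half_lt_self hε)
  rw [ZeroAtInftyContinuousMap.coe_sub, Pi.sub_apply, sec_apply]
  split_ifs with h
  · rw [sub_self, norm_zero]
    exact (half_pos hε).le
  · rw [zero_sub, norm_neg]
    exact (hm₀ i (hm.trans (not_lt.1 h))).le

/-- **Solutions on all finite dimensional sections with the same bound give a solution.** -/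
theorem sol_of_sections {N : ℕ} {f : Fin N → C₀(ℕ, ℂ) → ℂ} {g : C₀(ℕ, ℂ) → ℂ} {A : ℝ} (hA : 0 ≤ A)
    (hf : ∀ j, ContinuousOn (f j) (ball 0 1)) (hg : ContinuousOn g (ball 0 1))
    (H : ∀ m, ∃ h : Fin N → (Fin m → ℂ) → ℂ, (∀ j, DifferentiableOn ℂ (h j) (ball 0 1)) ∧
      ∀ t ∈ ball (0 : Fin m → ℂ) 1, ∑ j, f j (sec m t) * h j t = g (sec m t) ∧
        ∑ j, ‖h j t‖ ^ 2 ≤ A ^ 2) :
    ∃ h : Fin N → C₀(ℕ, ℂ) → ℂ, (∀ j, DifferentiableOn ℂ (h j) (ball 0 1)) ∧
      ∀ x ∈ ball (0 : C₀(ℕ, ℂ)) 1, ∑ j, f j x * h j x = g x ∧ ∑ j, ‖h j x‖ ^ 2 ≤ A ^ 2 := by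
  choose h hh hsol using H
  obtain ⟨𝒰, h𝒰⟩ : ∃ 𝒰 : Ultrafilter ℕ, (𝒰 : Filter ℕ) ≤ atTop :=
    ⟨Ultrafilter.of atTop, Ultrafilter.of_le _⟩
  have hpd : ∀ m : ℕ, Differentiable ℂ fun (x : C₀(ℕ, ℂ)) (i : Fin m) => x i := fun m =>
    differentiable_pi.2 fun i => coord_diff i
  have hpm : ∀ (m : ℕ) (x : C₀(ℕ, ℂ)), x ∈ ball (0 : C₀(ℕ, ℂ)) 1 →
      (fun i : Fin m => x i) ∈ ball (0 : Fin m → ℂ) 1 := by
    intro m x hx
    rw [mem_ball_zero_iff] at hx ⊢
    refine lt_of_le_of_lt ?_ hx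
    exact (pi_norm_le_iff_of_nonneg (norm_nonneg x)).2 fun i => coord_le x i
  have hcb : ∀ m j x, x ∈ ball (0 : C₀(ℕ, ℂ)) 1 → ‖h m j fun i : Fin m => x i‖ ≤ A := by
    intro m j x hx
    have h1 : ‖h m j fun i : Fin m => x i‖ ^ 2 ≤ A ^ 2 := (Finset.single_le_sum
      (f := fun j => ‖h m j fun i : Fin m => x i‖ ^ 2) (fun _ _ => sq_nonneg _)
      (Finset.mem_univ j)).trans (hsol m _ (hpm m x hx)).2
    exact (sq_le_sq₀ (norm_nonneg _) hA).mp h1
  choose k hk hklim using fun j => ultra_ball 𝒰 (F := fun m x => h m j fun i : Fin m => x i) hA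
    (fun m => (hh m j).comp (hpd m).differentiableOn fun x hx => hpm m x hx)
    (fun m x hx => hcb m j x hx)
  refine ⟨k, hk, fun x hx => ⟨?_, ?_⟩⟩
  · have hsec : Tendsto (fun m => sec m fun i => x i) 𝒰 (𝓝 x) := (tendsto_sec x).mono_left h𝒰
    have h1 : ∀ F : C₀(ℕ, ℂ) → ℂ, ContinuousOn F (ball 0 1) →
        Tendsto (fun m => F (sec m fun i => x i)) 𝒰 (𝓝 (F x)) := fun F hF =>
      (hF.continuousAt (isOpen_ball.mem_nhds hx)).tendsto.comp hsec
    have h2 : Tendsto (fun m => ∑ j, f j (sec m fun i => x i) * h m j fun i : Fin m => x i) 𝒰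
        (𝓝 (∑ j, f j x * k j x)) :=
      tendsto_finsetSum _ fun j _ => (h1 (f j) (hf j)).mul (hklim j x hx)
    refine tendsto_nhds_unique h2 ((h1 g hg).congr fun m => ?_)
    exact ((hsol m _ (hpm m x hx)).1).symm
  · have h3 : Tendsto (fun m => ∑ j, ‖h m j fun i : Fin m => x i‖ ^ 2) 𝒰
        (𝓝 (∑ j, ‖k j x‖ ^ 2)) :=
      tendsto_finsetSum _ fun j _ => (hklim j x hx).norm.pow 2
    exact le_of_tendsto h3 (Eventually.of_forall fun m => (hsol m _ (hpm m x hx)).2)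

end Pool.Agent.MPca0fc2.FP
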