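import Pool.Agent.Lib.MP_ca0fc2_an.Mg.G111

/-! Campaign FP, row V4: the ball of `ℓ²`. -/

set_option autoImplicit false

open Metric Set Filter Topology

namespace Pool.Agent.MPca0fc2.FP

open Pool.Agent.MPca0fc2.PD

/-! ### shifts on `ℓ²` -/

theorem v4_memShl (x : l2) : Memℓp (fun i => x (i + 1)) 2 := by
  refine memℓp_gen ?_
  have h := (l2_sq x).summable
  have h1 : Summable fun i => ‖x (i + 1)‖ ^ 2 := (summable_nat_add_iff (f := fun i => ‖x i‖ ^ 2) 1).2 h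
  simpa using h1

theorem v4_memShr (x : l2) : Memℓp (fun i => if i = 0 then (0 : ℂ) else x (i - 1)) 2 := by
  refine memℓp_gen ?_
  have h := (l2_sq x).summable
  have h1 : Summable fun i : ℕ => ‖if i = 0 then (0 : ℂ) else x (i - 1)‖ ^ 2 := by
    refine (summable_nat_add_iff 1).1 ?_
    refine h.congr fun i => ?_
    rw [if_neg (Nat.succ_ne_zero i), Nat.add_sub_cancel]
  simpa using h1

/-- the left shift -/
noncomputable def v4shlFun (x : l2) : l2 := ⟨fun i => x (i + 1), v4_memShl x⟩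

theorem v4shlFun_apply (x : l2) (i : ℕ) : v4shlFun x i = x (i + 1) := rfl

/-- the right shift -/
noncomputable def v4shrFun (x : l2) : l2 := ⟨fun i => if i = 0 then 0 else x (i - 1), v4_memShr x⟩

theorem v4shrFun_zero (x : l2) : v4shrFun x 0 = 0 := rfl

theorem v4shrFun_succ (x : l2) (i : ℕ) : v4shrFun x (i + 1) = x i := rfl

/-- `‖x‖² = |x 0|² + ‖S x‖²` -/
theorem v4_norm_sq (x : l2) : ‖x‖ ^ 2 = ‖x 0‖ ^ 2 + ‖v4shlFun x‖ ^ 2 := by
  have h := l2_sq x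
  have h1 := l2_sq (v4shlFun x)
  rw [← h.tsum_eq, ← h1.tsum_eq, h.summable.tsum_eq_zero_add]
  rfl

theorem v4shlFun_le (x : l2) : ‖v4shlFun x‖ ≤ ‖x‖ := by
  have h := v4_norm_sq x
  nlinarith [norm_nonneg x, norm_nonneg (v4shlFun x), sq_nonneg ‖x 0‖]

theorem v4shl_shr (x : l2) : v4shlFun (v4shrFun x) = x := by
  ext i
  rw [v4shlFun_apply, v4shrFun_succ]

theorem v4shrFun_norm (x : l2) : ‖v4shrFun x‖ = ‖x‖ := by
  have h := v4_norm_sq (v4shrFun x)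
  rw [v4shrFun_zero, norm_zero, v4shl_shr] at h
  have h1 : ‖v4shrFun x‖ ^ 2 = ‖x‖ ^ 2 := by rw [h]; ring
  exact (sq_eq_sq₀ (norm_nonneg _) (norm_nonneg _)).1 h1

/-- the left shift -/
noncomputable def v4shl : l2 →L[ℂ] l2 :=
  LinearMap.mkContinuous
    { toFun := v4shlFun
      map_add' := fun x y => by
        ext i
        rfl
      map_smul' := fun c x => by
        ext i
        rfl } 1 (fun x => by
        rw [one_mul]
        exact v4shlFun_le x)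

theorem v4shl_apply (x : l2) (i : ℕ) : v4shl x i = x (i + 1) := rfl

theorem v4shl_eq (x : l2) : v4shl x = v4shlFun x := rfl

/-- the right shift -/
noncomputable def v4shr : l2 →L[ℂ] l2 :=
  LinearMap.mkContinuous
    { toFun := v4shrFun
      map_add' := fun x y => by
        ext i
        change (if i = 0 then (0 : ℂ) else x (i - 1) + y (i - 1)) =
          (if i = 0 then (0 : ℂ) else x (i - 1)) + (if i = 0 then (0 : ℂ) else y (i - 1))
        split_ifs <;> simp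
      map_smul' := fun c x => by
        ext i
        change (if i = 0 then (0 : ℂ) else c * x (i - 1)) = c * (if i = 0 then (0 : ℂ) else x (i - 1))
        split_ifs <;> simp } 1 (fun x => by
        rw [one_mul]
        exact (v4shrFun_norm x).le)

theorem v4shr_zero (x : l2) : v4shr x 0 = 0 := rfl

theorem v4shr_succ (x : l2) (i : ℕ) : v4shr x (i + 1) = x i := rfl

/-- the first unit vector -/
noncomputable def v4e : l2 := lp.single 2 0 (1 : ℂ)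

theorem v4e_zero : v4e 0 = 1 := lp.single_apply_self _ _ _

theorem v4e_succ (i : ℕ) : v4e (i + 1) = 0 := lp.single_apply_ne _ _ _ (Nat.succ_ne_zero i)

theorem v4_coord_le (x : l2) (i : ℕ) : ‖x i‖ ≤ ‖x‖ := lp.norm_apply_le_norm (by norm_num) x i

/-- the first coordinate -/
noncomputable def v4c : l2 →L[ℂ] ℂ :=
  LinearMap.mkContinuous
    { toFun := fun x : l2 => x 0
      map_add' := fun _ _ => rfl
      map_smul' := fun _ _ => rfl } 1 (fun x => by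
        rw [one_mul]
        exact v4_coord_le x 0)

theorem v4_coord_diff : Differentiable ℂ (fun x : l2 => x 0) := v4c.differentiable

/-! ### the function `W` -/

/-- the function `W` -/
noncomputable def v4W (x : l2) : ℂ := (1 + x 0) / (1 - x 0)

theorem v4_one_sub_ne {x : l2} (hx : x ∈ ball (0 : l2) 1) : (1 : ℂ) - x 0 ≠ 0 := by
  rw [mem_ball_zero_iff] at hx
  intro h
  have h1 : x 0 = 1 := (sub_eq_zero.1 h).symm
  have h2 := v4_coord_le x 0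
  rw [h1, norm_one] at h2
  linarith

/-- `|1 - x 0|² Re W = 1 - |x 0|²` -/
theorem v4W_re_eq {x : l2} (hx : x ∈ ball (0 : l2) 1) :
    ‖1 - x 0‖ ^ 2 * (v4W x).re = 1 - ‖x 0‖ ^ 2 := by
  have h0 := v4_one_sub_ne hx
  have h4 : 0 < Complex.normSq (1 - x 0) := Complex.normSq_pos.2 h0
  rw [← Complex.normSq_eq_norm_sq, ← Complex.normSq_eq_norm_sq, v4W, Complex.div_re, ← add_div,
    mul_div_cancel₀ _ h4.ne']
  rw [Complex.normSq_apply]
  simp only [Complex.add_re, Complex.one_re, Complex.sub_re, Complex.add_im, Complex.one_im,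
    Complex.sub_im]
  ring

theorem v4W_re {x : l2} (hx : x ∈ ball (0 : l2) 1) : 0 < (v4W x).re := by
  have h0 := v4_one_sub_ne hx
  have h1 := v4W_re_eq hx
  rw [mem_ball_zero_iff] at hx
  have h2 : ‖x 0‖ < 1 := (v4_coord_le x 0).trans_lt hx
  have h3 : 0 < ‖1 - x 0‖ ^ 2 := by positivity
  have h4 : 0 < 1 - ‖x 0‖ ^ 2 := by
    have := norm_nonneg (x 0)
    nlinarith
  rw [← h1] at h4
  exact (mul_pos_iff_of_pos_left h3).1 h4

theorem v4W_diff : DifferentiableOn ℂ v4W (ball 0 1) := by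
  have h1 : DifferentiableOn ℂ (fun x : l2 => (1 : ℂ) + x 0) (ball 0 1) :=
    ((differentiable_const (1 : ℂ)).add v4_coord_diff).differentiableOn
  have h2 : DifferentiableOn ℂ (fun x : l2 => (1 : ℂ) - x 0) (ball 0 1) :=
    ((differentiable_const (1 : ℂ)).sub v4_coord_diff).differentiableOn
  have h3 : DifferentiableOn ℂ (fun x : l2 => ((1 : ℂ) - x 0)⁻¹) (ball 0 1) :=
    h2.inv fun x hx => v4_one_sub_ne hx
  refine (h1.mul h3).congr fun x _ => ?_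
  rw [v4W, div_eq_mul_inv]
  rfl

/-- the denominator -/
noncomputable def v4D (a : ℝ) (k : ℕ) (x : l2) : ℂ :=
  v4W x - ((k : ℂ) + 1) * Complex.I + ((a ^ 2 / 36 : ℝ) : ℂ)

theorem v4_mulI_re (k : ℕ) : (((k : ℂ) + 1) * Complex.I).re = 0 := by
  rw [Complex.mul_re, Complex.I_re, Complex.I_im, Complex.add_im, Complex.natCast_im, Complex.one_im]
  ring

theorem v4D_re (a : ℝ) (k : ℕ) (x : l2) : (v4D a k x).re = (v4W x).re + a ^ 2 / 36 := by
  rw [v4D, Complex.add_re, Complex.ofReal_re, Complex.sub_re, v4_mulI_re, sub_zero]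

theorem v4D_ge (a : ℝ) (k : ℕ) (x : l2) : (v4W x).re + a ^ 2 / 36 ≤ ‖v4D a k x‖ := by
  have h := Complex.re_le_norm (v4D a k x)
  rwa [v4D_re] at h

theorem v4D_ge' (a : ℝ) (k : ℕ) {x : l2} (hx : x ∈ ball (0 : l2) 1) :
    ‖v4W x - ((k : ℂ) + 1) * Complex.I‖ ≤ ‖v4D a k x‖ := by
  have h1 := v4W_re hx
  have h2 : (v4D a k x).im = (v4W x - ((k : ℂ) + 1) * Complex.I).im := by
    rw [v4D, Complex.add_im, Complex.ofReal_im, add_zero]
  have h3 : (v4W x - ((k : ℂ) + 1) * Complex.I).re = (v4W x).re := by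
    rw [Complex.sub_re, v4_mulI_re, sub_zero]
  rw [Complex.norm_def, Complex.norm_def]
  refine Real.sqrt_le_sqrt ?_
  rw [Complex.normSq_apply, Complex.normSq_apply, h2, h3, v4D_re]
  nlinarith [sq_nonneg a, mul_nonneg h1.le (sq_nonneg a)]

theorem v4D_pos (a : ℝ) (k : ℕ) {x : l2} (hx : x ∈ ball (0 : l2) 1) : 0 < ‖v4D a k x‖ := by
  have h := v4D_ge a k x
  have h1 := v4W_re hx
  have h2 : 0 ≤ a ^ 2 / 36 := by positivity
  linarith

theorem v4D_ne (a : ℝ) (k : ℕ) {x : l2} (hx : x ∈ ball (0 : l2) 1) : v4D a k x ≠ 0 :=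
  norm_pos_iff.1 (v4D_pos a k hx)

/-- the map `Φ`; `2 √t = a / 3` -/
noncomputable def v4Phi (a : ℝ) (k : ℕ) (x : l2) : l2 :=
  ((a / 3 : ℝ) : ℂ) • ((1 - x 0)⁻¹ • ((v4D a k x)⁻¹ • v4shl x))

/-- `‖Φ x‖² |D|² ≤ (a / 3)² Re W` (strict inequality for `0 < a`) -/
theorem v4Phi_sq {a : ℝ} (k : ℕ) (ha : 0 < a) {x : l2} (hx : x ∈ ball (0 : l2) 1) :
    ‖v4Phi a k x‖ ^ 2 * ‖v4D a k x‖ ^ 2 < (a / 3) ^ 2 * (v4W x).re := by
  have h0 := v4_one_sub_ne hx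
  have h1 := v4W_re_eq hx
  have hD := v4D_pos a k hx
  have hs := v4_norm_sq x
  have hp : 0 < ‖1 - x 0‖ ^ 2 := by positivity
  rw [mem_ball_zero_iff] at hx
  have hx2 : ‖x‖ ^ 2 < 1 := by
    have := norm_nonneg x
    nlinarith
  have h2 : ‖v4Phi a k x‖ ^ 2 * ‖v4D a k x‖ ^ 2 * ‖1 - x 0‖ ^ 2 = (a / 3) ^ 2 * ‖v4shlFun x‖ ^ 2 := by
    rw [v4Phi, norm_smul, norm_smul, norm_smul, norm_inv, norm_inv, Complex.norm_real,
      Real.norm_of_nonneg (by positivity : 0 ≤ a / 3), v4shl_eq]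
    have h3 : ‖1 - x 0‖ ≠ 0 := by positivity
    field_simp
  have h3 : (a / 3) ^ 2 * (v4W x).re * ‖1 - x 0‖ ^ 2 = (a / 3) ^ 2 * (1 - ‖x 0‖ ^ 2) := by
    rw [← h1]
    ring
  refine lt_of_mul_lt_mul_right ?_ hp.le
  rw [h2, h3]
  refine mul_lt_mul_of_pos_left ?_ (by positivity)
  linarith

theorem v4Phi_lt {a : ℝ} (k : ℕ) (ha : 0 < a) {x : l2} (hx : x ∈ ball (0 : l2) 1) :
    ‖v4Phi a k x‖ < 1 := by
  have h := v4Phi_sq k ha hx
  have hD := v4D_pos a k hx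
  have h1 := v4D_ge a k x
  have h2 := v4W_re hx
  have h3 : (a / 3) ^ 2 * (v4W x).re ≤ ‖v4D a k x‖ ^ 2 := by
    have h4 : ((v4W x).re + a ^ 2 / 36) ^ 2 ≤ ‖v4D a k x‖ ^ 2 := by
      have h5 : 0 ≤ (v4W x).re + a ^ 2 / 36 := by positivity
      exact pow_le_pow_left₀ h5 h1 2
    nlinarith [sq_nonneg ((v4W x).re - a ^ 2 / 36)]
  have h4 : ‖v4Phi a k x‖ ^ 2 * ‖v4D a k x‖ ^ 2 < 1 * ‖v4D a k x‖ ^ 2 := by
    rw [one_mul]
    exact h.trans_le h3
  have h5 : ‖v4Phi a k x‖ ^ 2 < 1 := lt_of_mul_lt_mul_right h4 (sq_nonneg _)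
  nlinarith [norm_nonneg (v4Phi a k x)]

/-- `‖Φ x‖² ≤ (a / 3)² / |W - i y|` -/
theorem v4Phi_le {a : ℝ} (k : ℕ) (ha : 0 < a) {x : l2} (hx : x ∈ ball (0 : l2) 1) :
    ‖v4Phi a k x‖ ^ 2 * ‖v4W x - ((k : ℂ) + 1) * Complex.I‖ ≤ (a / 3) ^ 2 := by
  have h := v4Phi_sq k ha hx
  have hD := v4D_pos a k hx
  have h1 := v4D_ge' a k hx
  have h2 := v4W_re hx
  have h3 : (v4W x).re ≤ ‖v4W x - ((k : ℂ) + 1) * Complex.I‖ := by
    have h4 := Complex.re_le_norm (v4W x - ((k : ℂ) + 1) * Complex.I)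
    rwa [Complex.sub_re, v4_mulI_re, sub_zero] at h4
  have hb := norm_nonneg (v4W x - ((k : ℂ) + 1) * Complex.I)
  set b := ‖v4W x - ((k : ℂ) + 1) * Complex.I‖
  have hb0 : 0 < b := h2.trans_le h3
  have h5 : ‖v4Phi a k x‖ ^ 2 * b ^ 2 ≤ (a / 3) ^ 2 * b := by
    have h6 : ‖v4Phi a k x‖ ^ 2 * b ^ 2 ≤ ‖v4Phi a k x‖ ^ 2 * ‖v4D a k x‖ ^ 2 :=
      mul_le_mul_of_nonneg_left (pow_le_pow_left₀ hb h1 2) (sq_nonneg _)
    have h7 : (a / 3) ^ 2 * (v4W x).re ≤ (a / 3) ^ 2 * b :=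
      mul_le_mul_of_nonneg_left h3 (sq_nonneg _)
    linarith
  have h8 : ‖v4Phi a k x‖ ^ 2 * b * b ≤ (a / 3) ^ 2 * b := by
    calc ‖v4Phi a k x‖ ^ 2 * b * b = ‖v4Phi a k x‖ ^ 2 * b ^ 2 := by ring
      _ ≤ _ := h5
  exact le_of_mul_le_mul_right h8 hb0

/-- the number `(1 + u) / (1 - u) = i y + t` -/
noncomputable def v4s (a : ℝ) (k : ℕ) : ℂ := ((k : ℂ) + 1) * Complex.I + ((a ^ 2 / 36 : ℝ) : ℂ)

theorem v4s_re (a : ℝ) (k : ℕ) : (v4s a k).re = a ^ 2 / 36 := by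
  rw [v4s, Complex.add_re, v4_mulI_re, Complex.ofReal_re, zero_add]

/-- the first coordinate of `Ψ` -/
noncomputable def v4u (a : ℝ) (k : ℕ) : ℂ := (v4s a k - 1) / (v4s a k + 1)

theorem v4s_ne (a : ℝ) (k : ℕ) : v4s a k + 1 ≠ 0 := by
  intro h
  have h1 := congrArg Complex.re h
  rw [Complex.add_re, v4s_re, Complex.one_re, Complex.zero_re] at h1
  nlinarith [sq_nonneg a]

theorem v4u_sub (a : ℝ) (k : ℕ) : 1 - v4u a k = 2 / (v4s a k + 1) := by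
  have h := v4s_ne a k
  rw [v4u]
  field_simp
  ring

theorem v4u_eq (a : ℝ) (k : ℕ) : (1 + v4u a k) / (1 - v4u a k) = v4s a k := by
  have h := v4s_ne a k
  have h1 : 1 + v4u a k = 2 * v4s a k / (v4s a k + 1) := by
    rw [v4u]
    field_simp
    ring
  rw [h1, v4u_sub]
  field_simp

/-- `1 - |u|² = t |1 - u|²` -/
theorem v4u_sq (a : ℝ) (k : ℕ) : ‖v4u a k‖ ^ 2 + a ^ 2 / 36 * ‖1 - v4u a k‖ ^ 2 = 1 := by
  have h := v4s_ne a k
  have h1 : 0 < ‖v4s a k + 1‖ ^ 2 := by positivity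
  rw [v4u_sub, v4u, norm_div, norm_div, div_pow, div_pow]
  have h2 : ‖(2 : ℂ)‖ ^ 2 = 4 := by
    rw [Complex.norm_ofNat]
    norm_num
  have h3 : ‖v4s a k - 1‖ ^ 2 + 4 * (a ^ 2 / 36) = ‖v4s a k + 1‖ ^ 2 := by
    rw [← Complex.normSq_eq_norm_sq, ← Complex.normSq_eq_norm_sq, Complex.normSq_apply,
      Complex.normSq_apply, Complex.sub_re, Complex.sub_im, Complex.add_re, Complex.add_im,
      Complex.one_re, Complex.one_im, v4s_re]
    ring
  rw [h2, ← mul_div_assoc, ← add_div, div_eq_one_iff_eq h1.ne']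
  linarith

/-- the map `Ψ` -/
noncomputable def v4Psi (a : ℝ) (k : ℕ) (x : l2) : l2 :=
  v4u a k • v4e + (((a / 6 * (1 - a) : ℝ) : ℂ) * (1 - v4u a k)) • v4shr x

theorem v4Psi_zero (a : ℝ) (k : ℕ) (x : l2) : v4Psi a k x 0 = v4u a k := by
  change v4u a k * v4e 0 + (((a / 6 * (1 - a) : ℝ) : ℂ) * (1 - v4u a k)) * v4shr x 0 = v4u a k
  rw [v4shr_zero, v4e_zero, mul_one, mul_zero, add_zero]

theorem v4Psi_succ (a : ℝ) (k : ℕ) (x : l2) (i : ℕ) :
    v4Psi a k x (i + 1) = (((a / 6 * (1 - a) : ℝ) : ℂ) * (1 - v4u a k)) * x i := by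
  change v4u a k * v4e (i + 1) + (((a / 6 * (1 - a) : ℝ) : ℂ) * (1 - v4u a k)) * v4shr x (i + 1) = _
  rw [v4shr_succ, v4e_succ, mul_zero, zero_add]

theorem v4W_psi (a : ℝ) (k : ℕ) (x : l2) : v4W (v4Psi a k x) = v4s a k := by
  rw [v4W, v4Psi_zero, v4u_eq a k]

theorem v4shl_psi (a : ℝ) (k : ℕ) (x : l2) :
    v4shlFun (v4Psi a k x) = (((a / 6 * (1 - a) : ℝ) : ℂ) * (1 - v4u a k)) • x := by
  ext i
  rw [v4shlFun_apply, v4Psi_succ]
  rfl

theorem v4Psi_norm (a : ℝ) (k : ℕ) (x : l2) : ‖v4Psi a k x‖ ^ 2 =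
    ‖v4u a k‖ ^ 2 + a ^ 2 / 36 * ‖1 - v4u a k‖ ^ 2 * ((1 - a) ^ 2 * ‖x‖ ^ 2) := by
  rw [v4_norm_sq, v4Psi_zero, v4shl_psi, norm_smul, norm_mul, Complex.norm_real, Real.norm_eq_abs,
    mul_pow, mul_pow, sq_abs]
  ring

/-- PROOF. `W x = (1 + x 0) / (1 - x 0)`, `Re W = (1 - |x 0|²) / |1 - x 0|² > 0`, `|W| ≤ 2 / (1 - ρ)` on `ball 0 ρ`. `S x = (x 1, x 2, ..)` (left
shift), `R x = (0, x 0, x 1, ..)` (right shift), `‖x‖² = |x 0|² + ‖S x‖²`, `‖R x‖ = ‖x‖`. With `y = k + 1` and `t = t(a) := a² / 36` put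
`Φ a k x = (2 √t / ((1 - x 0) (W x - i y + t))) • S x`, `Ψ a k x = u • e₀ + (√t (1 - u) (1 - a)) • R x`, `u` the number with
`(1 + u) / (1 - u) = i y + t`, i.e. `u = (i y + t - 1) / (i y + t + 1)`.
`‖Φ x‖² = 4 t ‖S x‖² / |(1 - x 0) (W - i y + t)|² < 4 t (1 - |x 0|²) / .. = 4 t Re W / |W - i y + t|²`, and
`|W - i y + t|² ≥ (Re W + t)² ≥ 4 t Re W`: so `< 1`. Off the set: `|W - i y + t|² ≥ |W - i y|² ≥ 1/9` and `Re W ≤ |W - i y|`, so
`4 t Re W / |W - i y + t|² ≤ 4 t / |W - i y| ≤ 12 t ≤ a²`. `|W| → ∞`: `≤ 4 t / |W - i y| → 0`. `Ψ`: `1 - |u|² = |1 - u|² t`, so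
`‖Ψ x‖² = |u|² + t |1 - u|² (1 - a)² ‖x‖² < 1`; `W (Ψ x) = i y + t`, `t < 1/3`; `Φ (Ψ x) = 2 √t √t (1 - u) (1 - a) x / ((1 - u) 2 t) = (1 - a) x`. -/
theorem blocks_l2 : ∃ (W : l2 → ℂ) (Φ Ψ : ℝ → ℕ → l2 → l2), Blocks l2 W Φ Ψ := by
  refine ⟨v4W, v4Phi, v4Psi, ?_⟩
  have hmem : ∀ (a : ℝ) (k : ℕ), 0 < a → a < 1 → ∀ x ∈ ball (0 : l2) 1,
      v4Psi a k x ∈ ball (0 : l2) 1 := by
    intro a k ha ha1 x hx
    rw [mem_ball_zero_iff] at hx ⊢
    have h1 := v4Psi_norm a k x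
    have h2 := v4u_sq a k
    have h3 : 0 < a ^ 2 / 36 * ‖1 - v4u a k‖ ^ 2 := by
      have h4 : 1 - v4u a k ≠ 0 := by
        rw [v4u_sub]
        exact div_ne_zero two_ne_zero (v4s_ne a k)
      positivity
    have h4 : (1 - a) ^ 2 * ‖x‖ ^ 2 < 1 := by
      have h5 : ‖x‖ ^ 2 < 1 := by
        have := norm_nonneg x
        nlinarith
      have h6 : (1 - a) ^ 2 ≤ 1 := by nlinarith
      have h7 : 0 ≤ ‖x‖ ^ 2 := sq_nonneg _
      nlinarith
    have h5 : ‖v4Psi a k x‖ ^ 2 < 1 := by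
      rw [h1]
      calc ‖v4u a k‖ ^ 2 + a ^ 2 / 36 * ‖1 - v4u a k‖ ^ 2 * ((1 - a) ^ 2 * ‖x‖ ^ 2)
          < ‖v4u a k‖ ^ 2 + a ^ 2 / 36 * ‖1 - v4u a k‖ ^ 2 * 1 := by
            have := mul_lt_mul_of_pos_left h4 h3
            linarith
        _ = 1 := by rw [mul_one]; exact h2
    nlinarith [norm_nonneg (v4Psi a k x)]
  refine { bdd := ?_, diffΦ := ?_, memΦ := ?_, off := ?_, inf := ?_, diffΨ := ?_, memΨ := hmem,
           slab := ?_, inv := ?_ }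
  · intro ρ h0 h1
    refine ⟨2 / (1 - ρ), fun x hx => ?_⟩
    rw [mem_ball_zero_iff] at hx
    have h2 : ‖x 0‖ ≤ ρ := (v4_coord_le x 0).trans hx.le
    rw [v4W, norm_div]
    refine div_le_div₀ (by norm_num) ?_ (by linarith) ?_
    · refine (norm_add_le _ _).trans ?_
      rw [norm_one]
      linarith
    · have h3 := norm_sub_norm_le (1 : ℂ) (x 0)
      rw [norm_one] at h3
      linarith
  · intro a k ha _
    have h1 : DifferentiableOn ℂ (v4D a k) (ball 0 1) :=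
      (v4W_diff.sub_const _).add_const _
    have h2 : DifferentiableOn ℂ (fun x => (v4D a k x)⁻¹) (ball 0 1) :=
      h1.inv fun x hx => v4D_ne a k hx
    have h2' : DifferentiableOn ℂ (fun x : l2 => (1 : ℂ) - x 0) (ball 0 1) :=
      ((differentiable_const (1 : ℂ)).sub v4_coord_diff).differentiableOn
    have h2'' : DifferentiableOn ℂ (fun x : l2 => ((1 : ℂ) - x 0)⁻¹) (ball 0 1) :=
      h2'.inv fun x hx => v4_one_sub_ne hx
    have h3 : DifferentiableOn ℂ (fun x => ((a / 3 : ℝ) : ℂ) • ((1 - x 0)⁻¹ •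
        ((v4D a k x)⁻¹ • v4shl x))) (ball 0 1) :=
      (h2''.smul (h2.smul v4shl.differentiable.differentiableOn)).const_smul ((a / 3 : ℝ) : ℂ)
    exact h3
  · intro a k ha _ x hx
    rw [mem_ball_zero_iff]
    exact v4Phi_lt k ha hx
  · intro a k ha _ x hx h
    have h1 := v4Phi_le k ha hx
    have h2 : ‖v4Phi a k x‖ ^ 2 * (1 / 3) ≤ (a / 3) ^ 2 :=
      (mul_le_mul_of_nonneg_left h (sq_nonneg _)).trans h1
    have h3 : ‖v4Phi a k x‖ ^ 2 ≤ a ^ 2 := by nlinarith [sq_nonneg a]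
    exact (sq_le_sq₀ (norm_nonneg _) ha.le).1 h3
  · intro a k ha _ τ hτ
    refine ⟨(a / 3) ^ 2 / τ ^ 2 + ((k : ℝ) + 1), fun x hx h => ?_⟩
    have h2 : (a / 3) ^ 2 / τ ^ 2 ≤ ‖v4W x - ((k : ℂ) + 1) * Complex.I‖ := by
      have h3 := norm_sub_norm_le (v4W x) (((k : ℂ) + 1) * Complex.I)
      have h4 : ‖((k : ℂ) + 1) * Complex.I‖ ≤ (k : ℝ) + 1 := by
        rw [norm_mul, Complex.norm_I, mul_one]
        refine (norm_add_le _ _).trans ?_
        rw [norm_one, Complex.norm_natCast]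
      linarith
    have h1 := v4Phi_le k ha hx
    have h3 : ‖v4Phi a k x‖ ^ 2 * ((a / 3) ^ 2 / τ ^ 2) ≤ (a / 3) ^ 2 :=
      (mul_le_mul_of_nonneg_left h2 (sq_nonneg _)).trans h1
    have h4 : ‖v4Phi a k x‖ ^ 2 ≤ τ ^ 2 := by
      rw [← mul_div_assoc, div_le_iff₀ (by positivity), mul_comm] at h3
      exact le_of_mul_le_mul_left h3 (by positivity)
    exact (sq_le_sq₀ (norm_nonneg _) hτ.le).1 h4
  · intro a k _ _
    have h : Differentiable ℂ (fun x : l2 =>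
        v4u a k • v4e + (((a / 6 * (1 - a) : ℝ) : ℂ) * (1 - v4u a k)) • v4shr x) :=
      (differentiable_const _).add
        (v4shr.differentiable.const_smul (((a / 6 * (1 - a) : ℝ) : ℂ) * (1 - v4u a k)))
    exact h.differentiableOn
  · intro a k ha ha1 x _
    rw [v4W_psi a k, v4s, add_sub_cancel_left, Complex.norm_real, Real.norm_of_nonneg (by positivity)]
    nlinarith
  · intro a k ha ha1 x hx
    have h1 : v4D a k (v4Psi a k x) = ((a ^ 2 / 18 : ℝ) : ℂ) := by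
      rw [v4D, v4W_psi a k, v4s]
      push_cast
      ring
    have hu : 1 - v4u a k ≠ 0 := by
      rw [v4u_sub]
      exact div_ne_zero two_ne_zero (v4s_ne a k)
    have ha0 : (a : ℂ) ≠ 0 := Complex.ofReal_ne_zero.2 ha.ne'
    rw [v4Phi, h1, v4Psi_zero, v4shl_eq, v4shl_psi, smul_smul, smul_smul, smul_smul]
    congr 1
    push_cast
    field_simp
    ring

end Pool.Agent.MPca0fc2.FP
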