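import Pool.Agent.Lib.MP_ca0fc2_an.Mg.G111

/-! Campaign FP, row V5: the ball of `c₀`. -/

set_option autoImplicit false

open Metric Set Filter Topology

namespace Pool.Agent.MPca0fc2.FP

theorem v5_norm_le {x : c0} {b : ℝ} (hb : 0 ≤ b) (h : ∀ i, ‖x i‖ ≤ b) : ‖x‖ ≤ b := by
  rw [← ZeroAtInftyContinuousMap.norm_toBCF_eq_norm, BoundedContinuousFunction.norm_le hb]
  exact h

theorem v5_tendsto (x : c0) : Tendsto (fun i => x i) atTop (𝓝 0) := by
  have h := x.zero_at_infty'
  rw [cocompact_eq_cofinite, Nat.cofinite_eq_atTop] at h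
  exact h

/-- the left shift -/
noncomputable def v5shl : c0 →L[ℂ] c0 :=
  LinearMap.mkContinuous
    { toFun := fun x : c0 =>
        { toFun := fun i => x (i + 1)
          continuous_toFun := continuous_of_discreteTopology
          zero_at_infty' := by
            rw [cocompact_eq_cofinite, Nat.cofinite_eq_atTop]
            exact (v5_tendsto x).comp (tendsto_add_atTop_nat 1) }
      map_add' := fun _ _ => rfl
      map_smul' := fun _ _ => rfl } 1 (fun x => by
        rw [one_mul]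
        exact v5_norm_le (norm_nonneg _) fun i => coord_le x (i + 1))

theorem v5shl_apply (x : c0) (i : ℕ) : v5shl x i = x (i + 1) := rfl

theorem v5shl_le (x : c0) : ‖v5shl x‖ ≤ ‖x‖ :=
  v5_norm_le (norm_nonneg _) fun i => coord_le x (i + 1)

/-- the right shift -/
noncomputable def v5shr : c0 →L[ℂ] c0 :=
  LinearMap.mkContinuous
    { toFun := fun x : c0 =>
        { toFun := fun i => if i = 0 then 0 else x (i - 1)
          continuous_toFun := continuous_of_discreteTopology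
          zero_at_infty' := by
            rw [cocompact_eq_cofinite, Nat.cofinite_eq_atTop, ← tendsto_add_atTop_iff_nat 1]
            exact v5_tendsto x }
      map_add' := fun x y => by
        ext i
        change (if i = 0 then (0 : ℂ) else x (i - 1) + y (i - 1)) =
          (if i = 0 then 0 else x (i - 1)) + (if i = 0 then 0 else y (i - 1))
        split_ifs <;> simp
      map_smul' := fun c x => by
        ext i
        change (if i = 0 then (0 : ℂ) else c * x (i - 1)) = c * (if i = 0 then 0 else x (i - 1))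
        split_ifs <;> simp } 1 (fun x => by
        rw [one_mul]
        refine v5_norm_le (norm_nonneg _) fun i => ?_
        change ‖(if i = 0 then (0 : ℂ) else x (i - 1))‖ ≤ ‖x‖
        split_ifs
        · rw [norm_zero]
          exact norm_nonneg _
        · exact coord_le x _)

theorem v5shr_zero (x : c0) : v5shr x 0 = 0 := rfl

theorem v5shr_succ (x : c0) (i : ℕ) : v5shr x (i + 1) = x i := rfl

/-- the function `W` -/
noncomputable def v5W (x : c0) : ℂ := (1 + x 0) / (1 - x 0)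

theorem v5_one_sub_ne {x : c0} (hx : x ∈ ball (0 : c0) 1) : (1 : ℂ) - x 0 ≠ 0 := by
  rw [mem_ball_zero_iff] at hx
  intro h
  have h1 : x 0 = 1 := (sub_eq_zero.1 h).symm
  have h2 := coord_le x 0
  rw [h1, norm_one] at h2
  linarith

theorem v5W_re {x : c0} (hx : x ∈ ball (0 : c0) 1) : 0 < (v5W x).re := by
  have h0 := v5_one_sub_ne hx
  rw [mem_ball_zero_iff] at hx
  have h2 : ‖x 0‖ < 1 := (coord_le x 0).trans_lt hx
  have h3 : Complex.normSq (x 0) < 1 := by
    rw [Complex.normSq_eq_norm_sq]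
    have := norm_nonneg (x 0)
    nlinarith
  have h4 : 0 < Complex.normSq (1 - x 0) := Complex.normSq_pos.2 h0
  rw [v5W, Complex.div_re, ← add_div]
  refine div_pos ?_ h4
  rw [Complex.normSq_apply] at h3
  simp only [Complex.add_re, Complex.one_re, Complex.sub_re, Complex.add_im, Complex.one_im,
    Complex.sub_im]
  nlinarith

theorem v5W_diff : DifferentiableOn ℂ v5W (ball 0 1) := by
  have h : Differentiable ℂ (fun x : c0 => x 0) := coord_diff 0
  have h1 : DifferentiableOn ℂ (fun x : c0 => (1 : ℂ) + x 0) (ball 0 1) :=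
    ((differentiable_const (1 : ℂ)).add h).differentiableOn
  have h2 : DifferentiableOn ℂ (fun x : c0 => (1 : ℂ) - x 0) (ball 0 1) :=
    ((differentiable_const (1 : ℂ)).sub h).differentiableOn
  have h3 : DifferentiableOn ℂ (fun x : c0 => ((1 : ℂ) - x 0)⁻¹) (ball 0 1) :=
    h2.inv fun x hx => v5_one_sub_ne hx
  refine (h1.mul h3).congr fun x _ => ?_
  rw [v5W, div_eq_mul_inv]
  rfl

/-- the denominator -/
noncomputable def v5D (a : ℝ) (k : ℕ) (x : c0) : ℂ :=
  v5W x - ((k : ℂ) + 1) * Complex.I + ((a / 3 : ℝ) : ℂ)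

theorem v5_mulI_re (k : ℕ) : (((k : ℂ) + 1) * Complex.I).re = 0 := by
  rw [Complex.mul_re, Complex.I_re, Complex.I_im, Complex.add_im, Complex.natCast_im, Complex.one_im]
  ring

theorem v5D_re (a : ℝ) (k : ℕ) (x : c0) : (v5D a k x).re = (v5W x).re + a / 3 := by
  rw [v5D, Complex.add_re, Complex.ofReal_re, Complex.sub_re, v5_mulI_re, sub_zero]

theorem v5D_ge (a : ℝ) (k : ℕ) {x : c0} (hx : x ∈ ball (0 : c0) 1) : a / 3 ≤ ‖v5D a k x‖ := by
  have h := Complex.re_le_norm (v5D a k x)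
  rw [v5D_re] at h
  have h1 := v5W_re hx
  linarith

theorem v5D_ge' {a : ℝ} (k : ℕ) {x : c0} (ha : 0 < a) (hx : x ∈ ball (0 : c0) 1) :
    ‖v5W x - ((k : ℂ) + 1) * Complex.I‖ ≤ ‖v5D a k x‖ := by
  have h1 := v5W_re hx
  have h2 : (v5D a k x).im = (v5W x - ((k : ℂ) + 1) * Complex.I).im := by
    rw [v5D, Complex.add_im, Complex.ofReal_im, add_zero]
  have h3 : (v5W x - ((k : ℂ) + 1) * Complex.I).re = (v5W x).re := by
    rw [Complex.sub_re, v5_mulI_re, sub_zero]
  rw [Complex.norm_def, Complex.norm_def]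
  refine Real.sqrt_le_sqrt ?_
  rw [Complex.normSq_apply, Complex.normSq_apply, h2, h3, v5D_re]
  nlinarith

theorem v5D_ne {a : ℝ} (k : ℕ) {x : c0} (ha : 0 < a) (hx : x ∈ ball (0 : c0) 1) : v5D a k x ≠ 0 := by
  have h := v5D_ge a k hx
  intro h0
  rw [h0, norm_zero] at h
  linarith

/-- the map `Φ` -/
noncomputable def v5Phi (a : ℝ) (k : ℕ) (x : c0) : c0 :=
  ((a / 3 : ℝ) : ℂ) • ((v5D a k x)⁻¹ • v5shl x)

theorem v5Phi_norm_le {a : ℝ} (k : ℕ) {x : c0} {d : ℝ} (ha : 0 < a) (hd : 0 < d) (h : d ≤ ‖v5D a k x‖) : ‖v5Phi a k x‖ ≤ a / 3 / d * ‖x‖ := by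
  rw [v5Phi, norm_smul, norm_smul, norm_inv, Complex.norm_real, Real.norm_of_nonneg (by positivity),
    div_eq_mul_inv (a / 3) d, mul_assoc]
  refine mul_le_mul_of_nonneg_left ?_ (by positivity)
  exact mul_le_mul (inv_anti₀ hd h) (v5shl_le x) (norm_nonneg _) (by positivity)

/-- the number `(1 + u) / (1 - u) = i y + t a` -/
noncomputable def v5s (a : ℝ) (k : ℕ) : ℂ := ((k : ℂ) + 1) * Complex.I + ((a / 3 * a : ℝ) : ℂ)

theorem v5s_re (a : ℝ) (k : ℕ) : (v5s a k).re = a / 3 * a := by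
  rw [v5s, Complex.add_re, v5_mulI_re, Complex.ofReal_re, zero_add]

/-- the first coordinate of `Ψ` -/
noncomputable def v5u (a : ℝ) (k : ℕ) : ℂ := (v5s a k - 1) / (v5s a k + 1)

theorem v5s_ne (a : ℝ) (k : ℕ) : v5s a k + 1 ≠ 0 := by
  intro h
  have h1 := congrArg Complex.re h
  rw [Complex.add_re, v5s_re, Complex.one_re, Complex.zero_re] at h1
  nlinarith

theorem v5u_lt {a : ℝ} (k : ℕ) (ha : 0 < a) : ‖v5u a k‖ < 1 := by
  have ha2 : 0 < a * a := mul_pos ha ha
  rw [v5u, norm_div, div_lt_one (norm_pos_iff.2 (v5s_ne a k)), Complex.norm_def, Complex.norm_def]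
  refine Real.sqrt_lt_sqrt (Complex.normSq_nonneg _) ?_
  rw [Complex.normSq_apply, Complex.normSq_apply, Complex.sub_re, Complex.sub_im, Complex.add_re,
    Complex.add_im, Complex.one_re, Complex.one_im, v5s_re]
  nlinarith

theorem v5u_eq (a : ℝ) (k : ℕ) : (1 + v5u a k) / (1 - v5u a k) = v5s a k := by
  have h := v5s_ne a k
  have h1 : 1 + v5u a k = 2 * v5s a k / (v5s a k + 1) := by
    rw [v5u]
    field_simp
    ring
  have h2 : 1 - v5u a k = 2 / (v5s a k + 1) := by
    rw [v5u]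
    field_simp
    ring
  rw [h1, h2]
  field_simp

/-- the map `Ψ` -/
noncomputable def v5Psi (a : ℝ) (k : ℕ) (x : c0) : c0 := v5u a k • sg 0 + ((1 - a ^ 2 : ℝ) : ℂ) • v5shr x

theorem v5Psi_zero (a : ℝ) (k : ℕ) (x : c0) : v5Psi a k x 0 = v5u a k := by
  change v5u a k * (sg 0) 0 + ((1 - a ^ 2 : ℝ) : ℂ) * v5shr x 0 = v5u a k
  rw [v5shr_zero, sg_apply, if_pos rfl, mul_one, mul_zero, add_zero]

theorem v5Psi_succ (a : ℝ) (k : ℕ) (x : c0) (i : ℕ) :
    v5Psi a k x (i + 1) = ((1 - a ^ 2 : ℝ) : ℂ) * x i := by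
  change v5u a k * (sg 0) (i + 1) + ((1 - a ^ 2 : ℝ) : ℂ) * v5shr x (i + 1) = _
  rw [v5shr_succ, sg_apply, if_neg (Nat.succ_ne_zero i), mul_zero, zero_add]

theorem v5W_psi (a : ℝ) (k : ℕ) (x : c0) : v5W (v5Psi a k x) = v5s a k := by
  rw [v5W, v5Psi_zero, v5u_eq a k]

/-- PROOF. `W x = (1 + x 0) / (1 - x 0)`, `Re W > 0`, `|W| ≤ 2 / (1 - ρ)` on `ball 0 ρ`. `S x = (x 1, x 2, ..)`, `R x = (0, x 0, x 1, ..)`
(`‖S x‖ ≤ ‖x‖`, `‖R x‖ ≤ ‖x‖`). With `y = k + 1`, `t = a / 3`: `Φ a k x = (t / (W x - i y + t)) • S x`; `|W - i y + t| ≥ Re W + t ≥ t`, so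
`‖Φ x‖ ≤ ‖S x‖ < 1`; off the set `|W - i y + t| ≥ |W - i y| ≥ 1/3` gives `‖Φ x‖ ≤ 3 t = a`; `|W| → ∞`: `→ 0`.
`Ψ a k x = u • e₀ + (1 - a²) • R x` with `(1 + u) / (1 - u) = i y + t a`, i.e. `u = (i y + t a - 1) / (i y + t a + 1)`, `|u| < 1`;
`W (Ψ x) = i y + t a`, `t a < 1/3`; `Φ (Ψ x) = (t / (t a + t)) (1 - a²) x = (1 - a) x`; `‖Ψ x‖ = max |u| ((1 - a²) ‖x‖) < 1`. -/
theorem blocks_c0 : ∃ (W : c0 → ℂ) (Φ Ψ : ℝ → ℕ → c0 → c0), Blocks c0 W Φ Ψ := by
  refine ⟨v5W, v5Phi, v5Psi, ?_⟩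
  have hmem : ∀ (a : ℝ) (k : ℕ), 0 < a → a < 1 → ∀ x ∈ ball (0 : c0) 1,
      v5Psi a k x ∈ ball (0 : c0) 1 := by
    intro a k ha ha1 x hx
    rw [mem_ball_zero_iff] at hx ⊢
    refine lt_of_le_of_lt (v5_norm_le (b := max ‖v5u a k‖ ‖x‖) (le_max_of_le_left (norm_nonneg _))
      fun i => ?_) (max_lt (v5u_lt k ha) hx)
    rcases i with _ | i
    · rw [v5Psi_zero]
      exact le_max_left _ _
    · rw [v5Psi_succ, norm_mul, Complex.norm_real, Real.norm_of_nonneg (by nlinarith)]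
      refine le_max_of_le_right ?_
      have h1 := coord_le x i
      have h2 := norm_nonneg (x i)
      nlinarith [mul_nonneg (sq_nonneg a) h2]
  refine { bdd := ?_, diffΦ := ?_, memΦ := ?_, off := ?_, inf := ?_, diffΨ := ?_, memΨ := hmem,
           slab := ?_, inv := ?_ }
  · intro ρ h0 h1
    refine ⟨2 / (1 - ρ), fun x hx => ?_⟩
    rw [mem_ball_zero_iff] at hx
    have h2 : ‖x 0‖ ≤ ρ := (coord_le x 0).trans hx.le
    rw [v5W, norm_div]
    refine div_le_div₀ (by norm_num) ?_ (by linarith) ?_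
    · refine (norm_add_le _ _).trans ?_
      rw [norm_one]
      linarith
    · have h3 := norm_sub_norm_le (1 : ℂ) (x 0)
      rw [norm_one] at h3
      linarith
  · intro a k ha _
    have h1 : DifferentiableOn ℂ (v5D a k) (ball 0 1) :=
      (v5W_diff.sub_const _).add_const _
    have h2 : DifferentiableOn ℂ (fun x => (v5D a k x)⁻¹) (ball 0 1) :=
      h1.inv fun x hx => v5D_ne k ha hx
    have h3 : DifferentiableOn ℂ (fun x => ((a / 3 : ℝ) : ℂ) • ((v5D a k x)⁻¹ • v5shl x)) (ball 0 1) :=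
      (h2.smul v5shl.differentiable.differentiableOn).const_smul ((a / 3 : ℝ) : ℂ)
    exact h3
  · intro a k ha _ x hx
    have h1 := v5Phi_norm_le k ha (by positivity) (v5D_ge a k hx)
    rw [div_self (by positivity), one_mul] at h1
    rw [mem_ball_zero_iff] at hx ⊢
    exact h1.trans_lt hx
  · intro a k ha _ x hx h
    have h1 := v5Phi_norm_le k ha (by norm_num) (h.trans (v5D_ge' k ha hx))
    rw [mem_ball_zero_iff] at hx
    have h2 := norm_nonneg x
    have h3 : a / 3 / (1 / 3) = a := by ring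
    rw [h3] at h1
    nlinarith
  · intro a k ha _ τ hτ
    refine ⟨a / 3 / τ + ((k : ℝ) + 1) + a / 3, fun x hx h => ?_⟩
    have h2 : a / 3 / τ ≤ ‖v5D a k x‖ := by
      have h3 : v5W x = v5D a k x + ((k : ℂ) + 1) * Complex.I - ((a / 3 : ℝ) : ℂ) := by
        rw [v5D]
        ring
      have h4 : ‖v5W x‖ ≤ ‖v5D a k x‖ + ((k : ℝ) + 1) + a / 3 := by
        rw [h3]
        refine (norm_sub_le _ _).trans (add_le_add ((norm_add_le _ _).trans (add_le_add le_rfl ?_)) ?_)
        · rw [norm_mul, Complex.norm_I, mul_one]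
          refine (norm_add_le _ _).trans ?_
          rw [norm_one, Complex.norm_natCast]
        · rw [Complex.norm_real, Real.norm_of_nonneg (by positivity)]
      linarith
    have h1 := v5Phi_norm_le k ha (by positivity) h2
    rw [mem_ball_zero_iff] at hx
    have h5 : a / 3 / (a / 3 / τ) = τ := by
      field_simp
    rw [h5] at h1
    have h6 := norm_nonneg x
    nlinarith
  · intro a k _ _
    have h : Differentiable ℂ (fun x : c0 => v5u a k • sg 0 + ((1 - a ^ 2 : ℝ) : ℂ) • v5shr x) :=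
      (differentiable_const _).add (v5shr.differentiable.const_smul ((1 - a ^ 2 : ℝ) : ℂ))
    exact h.differentiableOn
  · intro a k ha ha1 x _
    rw [v5W_psi a k, v5s, add_sub_cancel_left, Complex.norm_real, Real.norm_of_nonneg (by positivity)]
    nlinarith
  · intro a k ha ha1 x hx
    have h1 : v5D a k (v5Psi a k x) = ((a / 3 * (1 + a) : ℝ) : ℂ) := by
      rw [v5D, v5W_psi a k, v5s]
      push_cast
      ring
    ext i
    change ((a / 3 : ℝ) : ℂ) * ((v5D a k (v5Psi a k x))⁻¹ * v5Psi a k x (i + 1)) = ((1 - a : ℝ) : ℂ) * x i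
    rw [h1, v5Psi_succ, ← mul_assoc, ← mul_assoc, ← Complex.ofReal_inv, ← Complex.ofReal_mul,
      ← Complex.ofReal_mul]
    congr 2
    field_simp
    ring

end Pool.Agent.MPca0fc2.FP
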