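import Pool.Agent.Lib.MP_ca0fc2_an.Mg.G110
import Pool.Agent.Lib.MP_ca0fc2_an.Mg.G109

/-! Campaign FP, row V6: bounds for all finite dimensional balls are bounds for the infinite dimensional ball. -/

set_option autoImplicit false

open Metric Set Filter Topology
open scoped ZeroAtInfty

namespace Pool.Agent.MPca0fc2.FP

open Pool.Agent.MPca0fc2.PD

/-- the coordinates of the solution -/
theorem VSol.coord {E : Type*} [NormedAddCommGroup E] [NormedSpace ℂ E] {N : ℕ} {f : E → En N}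
    {U : Set E} {A : ℝ} (h : VSol f U A) :
    ∃ h : Fin N → E → ℂ, (∀ j, DifferentiableOn ℂ (h j) U) ∧
      ∀ x ∈ U, ∑ j, f x j * h j x = 1 ∧ ∑ j, ‖h j x‖ ^ 2 ≤ A ^ 2 := by
  obtain ⟨k, hk, hk1⟩ := h
  refine ⟨fun j x => k x j, fun j => (differentiableOn_euclidean.1 hk) j, fun x hx => ⟨(hk1 x hx).1, ?_⟩⟩
  rw [← EuclideanSpace.norm_sq_eq]
  have h1 := (hk1 x hx).2
  have h2 := norm_nonneg (k x)
  nlinarith

theorem vsol_of_coord {E : Type*} [NormedAddCommGroup E] [NormedSpace ℂ E] {N : ℕ} {f : E → En N}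
    {U : Set E} {A : ℝ} (hA : 0 ≤ A)
    (h : ∃ h : Fin N → E → ℂ, (∀ j, DifferentiableOn ℂ (h j) U) ∧
      ∀ x ∈ U, ∑ j, f x j * h j x = 1 ∧ ∑ j, ‖h j x‖ ^ 2 ≤ A ^ 2) : VSol f U A := by
  obtain ⟨k, hk, hk1⟩ := h
  refine ⟨fun x => WithLp.toLp 2 fun j => k j x, differentiableOn_euclidean.2 hk, fun x hx =>
    ⟨(hk1 x hx).1, ?_⟩⟩
  refine (sq_le_sq₀ (norm_nonneg _) hA).1 ?_
  rw [EuclideanSpace.norm_sq_eq]
  exact (hk1 x hx).2

/-- composition with a map of the balls -/
theorem VSol.comp {E F : Type*} [NormedAddCommGroup E] [NormedSpace ℂ E] [NormedAddCommGroup F]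
    [NormedSpace ℂ F] {N : ℕ} {f : E → En N} {U : Set E} {V : Set F} {A : ℝ} (h : VSol f U A)
    {Φ : F → E} (hΦ : DifferentiableOn ℂ Φ V) (hm : MapsTo Φ V U) : VSol (fun x => f (Φ x)) V A := by
  obtain ⟨k, hk, hk1⟩ := h
  exact ⟨fun x => k (Φ x), hk.comp hΦ hm, fun x hx => hk1 _ (hm hx)⟩

/-- bounds for `E` are bounds for `F` if `F` is a retract of `E` -/
theorem VUnif.retract {E F : Type*} [NormedAddCommGroup E] [NormedSpace ℂ E] [NormedAddCommGroup F]
    [NormedSpace ℂ F] {N : ℕ} {δ A : ℝ} (h : VUnif N E δ A) {i : F → E} {p : E → F}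
    (hi : DifferentiableOn ℂ i (ball 0 1)) (him : MapsTo i (ball 0 1) (ball 0 1))
    (hp : DifferentiableOn ℂ p (ball 0 1)) (hpm : MapsTo p (ball 0 1) (ball 0 1))
    (hpi : ∀ x ∈ ball (0 : F) 1, p (i x) = x) : VUnif N F δ A := by
  intro f hf hf1
  obtain ⟨k, hk, hk1⟩ := (h (fun x => f (p x)) (hf.comp hp hpm) fun x hx => hf1 _ (hpm hx)).comp hi him
  refine ⟨k, hk, fun x hx => ?_⟩
  have h1 := hk1 x hx
  simp only [hpi x hx] at h1
  exact h1

theorem unif_l2_iff {N : ℕ} {δ A : ℝ} (hA : 0 ≤ A) :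
    VUnif N l2 δ A ↔ ∀ n, 2 ≤ n → VUnif N (En n) δ A := by
  constructor
  · intro h n _
    exact h.retract (jn n).differentiable.differentiableOn (fun x hx => jn_mem hx)
      (pn n).differentiable.differentiableOn (fun x hx => pn_mem hx) fun x _ => pn_jn x
  · intro h f hf hf1
    refine vsol_of_coord hA (sol_of_balls (g := fun _ => 1) hA
      (fun j => ((differentiableOn_euclidean.1 hf) j).continuousOn) continuousOn_const fun n hn => ?_)
    exact (h n hn (fun x => f (jn n x)) (hf.comp (jn n).differentiable.differentiableOn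
      fun x hx => jn_mem hx) fun x hx => hf1 _ (jn_mem hx)).coord

theorem proj_diff (m : ℕ) : Differentiable ℂ fun (x : c0) (i : Fin m) => x i :=
  differentiable_pi.2 fun i => coord_diff i

theorem proj_mem' {m : ℕ} {x : c0} (hx : x ∈ ball (0 : c0) 1) :
    (fun i : Fin m => x i) ∈ ball (0 : Fin m → ℂ) 1 := by
  rw [mem_ball_zero_iff] at hx ⊢
  refine lt_of_le_of_lt ?_ hx
  exact (pi_norm_le_iff_of_nonneg (norm_nonneg x)).2 fun i => coord_le x i

theorem unif_c0_iff {N : ℕ} {δ A : ℝ} (hA : 0 ≤ A) :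
    VUnif N c0 δ A ↔ ∀ m, VUnif N (Fin m → ℂ) δ A := by
  constructor
  · intro h m
    refine h.retract (sec_diff m).differentiableOn (fun x hx => sec_mem hx)
      (proj_diff m).differentiableOn (fun x hx => proj_mem' hx) fun x _ => ?_
    funext i
    rw [sec_apply, dif_pos i.2]
  · intro h f hf hf1
    refine vsol_of_coord hA (sol_of_sections (g := fun _ => 1) hA
      (fun j => ((differentiableOn_euclidean.1 hf) j).continuousOn) continuousOn_const fun m => ?_)
    exact (h m (fun x => f (sec m x)) (hf.comp (sec_diff m).differentiableOn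
      fun x hx => sec_mem hx) fun x hx => hf1 _ (sec_mem hx)).coord

end Pool.Agent.MPca0fc2.FP
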